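import Mathlib

/-!
The algebraic core of the classification.
-/

namespace Pool.Agent.P.MP_67bdec_gt

open Set Polynomial

section dom

variable {E : Type*} [NormedAddCommGroup E] [NormedSpace ℝ E] {N : Set E}

theorem an_mul_eq_zero (hN : IsPreconnected N) (hNo : IsOpen N) {f g : E → ℝ}
    (hf : AnalyticOnNhd ℝ f N) (hg : AnalyticOnNhd ℝ g N) (h : ∀ t ∈ N, f t * g t = 0) :
    (∀ t ∈ N, f t = 0) ∨ (∀ t ∈ N, g t = 0) := by
  by_cases h1 : ∀ t ∈ N, f t = 0
  · exact Or.inl h1
  · right
    push Not at h1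
    obtain ⟨t1, ht1, hf1⟩ := h1
    have hev : g =ᶠ[nhds t1] 0 := by
      have h2 : ∀ᶠ t in nhds t1, f t ≠ 0 := (hf t1 ht1).continuousAt.eventually_ne hf1
      filter_upwards [h2, hNo.mem_nhds ht1] with t h3 h4
      exact (mul_eq_zero.1 (h t h4)).resolve_left h3
    intro t ht
    exact hg.eqOn_zero_of_preconnected_of_eventuallyEq_zero hN ht1 hev ht

theorem an_poly {u : E → ℝ} (hu : AnalyticOnNhd ℝ u N) (p : ℝ[X]) :
    AnalyticOnNhd ℝ (fun t => p.eval (u t)) N := by
  have := hu.aeval_polynomial p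
  simpa [aeval_def, eval₂_eq_eval_map] using this

omit [NormedAddCommGroup E] [NormedSpace ℝ E] in
theorem poly_eq_zero {u : E → ℝ} (hu : (u '' N).Infinite) (p : ℝ[X])
    (h : ∀ t ∈ N, p.eval (u t) = 0) : p = 0 := by
  apply p.eq_zero_of_infinite_isRoot
  refine hu.mono ?_
  rintro _ ⟨t, ht, rfl⟩
  exact h t ht

omit [NormedSpace ℝ E] in
/-- A non-constant continuous function on a connected set takes infinitely many values. -/
theorem infinite_image_of_ne (hN : IsPreconnected N) {b : E → ℝ} (hb : ContinuousOn b N)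
    {t0 t1 : E} (h0 : t0 ∈ N) (h1 : t1 ∈ N) (hne : b t0 ≠ b t1) : (b '' N).Infinite := by
  have hc : IsPreconnected (b '' N) := hN.image b hb
  rcases lt_or_gt_of_ne hne with h | h
  · exact (Icc_infinite h).mono (hc.Icc_subset ⟨t0, h0, rfl⟩ ⟨t1, h1, rfl⟩)
  · exact (Icc_infinite h).mono (hc.Icc_subset ⟨t1, h1, rfl⟩ ⟨t0, h0, rfl⟩)

/-- If an analytic function vanishes wherever a non-constant analytic `b` avoids a finite set,
it vanishes. -/
theorem an_eq_zero_off_finite (hN : IsPreconnected N) (hNo : IsOpen N) {b g : E → ℝ}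
    (hb : AnalyticOnNhd ℝ b N) (hg : AnalyticOnNhd ℝ g N) (hinf : (b '' N).Infinite)
    (S : Finset ℝ) (h : ∀ t ∈ N, b t ∉ S → g t = 0) : ∀ t ∈ N, g t = 0 := by
  classical
  let p : ℝ[X] := ∏ β ∈ S, (X - C β)
  have hp : p ≠ 0 := (monic_prod_of_monic _ _ fun β _ => monic_X_sub_C β).ne_zero
  rcases an_mul_eq_zero hN hNo (an_poly hb p) hg (fun t ht => by
    by_cases hm : b t ∈ S
    · have : p.eval (b t) = 0 := by
        simp only [p, eval_prod]
        exact Finset.prod_eq_zero hm (by simp)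
      rw [this, zero_mul]
    · rw [h t ht hm, mul_zero]) with h1 | h1
  · exact absurd (poly_eq_zero hinf p h1) hp
  · exact h1

/-- Reduction of a rational relation to lowest terms. -/
theorem rat_reduce (hN : IsPreconnected N) (hNo : IsOpen N) {u a : E → ℝ}
    (hu : AnalyticOnNhd ℝ u N) (ha : AnalyticOnNhd ℝ a N) (hinf : (u '' N).Infinite)
    {D0 N0 : ℝ[X]} (hD : D0 ≠ 0) (h : ∀ t ∈ N, D0.eval (u t) * a t = N0.eval (u t)) :
    ∃ D M : ℝ[X], IsCoprime D M ∧ ∀ t ∈ N, D.eval (u t) * a t = M.eval (u t) := by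
  classical
  set g := GCDMonoid.gcd D0 N0 with hg
  have hg0 : g ≠ 0 := gcd_ne_zero_of_left hD
  refine ⟨D0 / g, N0 / g, isCoprime_div_gcd_div_gcd_of_gcd_ne_zero hg0, ?_⟩
  have e1 : g * (D0 / g) = D0 := EuclideanDomain.mul_div_cancel' hg0 (gcd_dvd_left _ _)
  have e2 : g * (N0 / g) = N0 := EuclideanDomain.mul_div_cancel' hg0 (gcd_dvd_right _ _)
  rcases an_mul_eq_zero hN hNo (an_poly hu g)
    (((an_poly hu (D0 / g)).mul ha).sub (an_poly hu (N0 / g))) (fun t ht => by
      have := h t ht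
      rw [← e1, ← e2, eval_mul, eval_mul] at this
      simp only [Pi.sub_apply]
      linear_combination this) with h1 | h1
  · exact absurd (poly_eq_zero hinf g h1) hg0
  · intro t ht
    have := h1 t ht
    simp only [Pi.sub_apply] at this
    linear_combination this

end dom

section poly

theorem sq_dvd_struct (W : ℝ[X]) (r : ℝ) (h : W ∣ (X - C r) ^ 2) :
    W.natDegree ≤ 2 ∧ W.coeff 2 * (W.coeff 1 ^ 2 - 4 * W.coeff 0 * W.coeff 2) = 0 ∧
      (W.coeff 1 ≠ 0 → W.eval r = 0) := by
  obtain ⟨i, hi, hass⟩ := (dvd_prime_pow (prime_X_sub_C r) 2).1 h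
  obtain ⟨w, hw⟩ := hass.symm
  obtain ⟨k, -, hk⟩ := Polynomial.isUnit_iff.1 w.isUnit
  rw [← hk] at hw
  subst hw
  interval_cases i
  · refine ⟨by simp, by simp [coeff_C], by simp⟩
  · have e : (X - C r) ^ 1 * C k = C k * X - C (k * r) := by simp only [map_mul]; ring
    refine ⟨?_, ?_, by simp⟩
    · rw [e]; compute_degree!
    · rw [e]; simp [coeff_X, coeff_C]
  · have e : (X - C r) ^ 2 * C k = C k * X ^ 2 - C (2 * k * r) * X + C (k * r ^ 2) := by
      simp only [map_mul, map_pow, map_ofNat]; ring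
    refine ⟨?_, ?_, by simp⟩
    · rw [e]; compute_degree!
    · rw [e]
      simp only [coeff_add, coeff_sub, coeff_C_mul, coeff_X_pow, coeff_X, coeff_C]
      norm_num
      right; ring

theorem eval_of_natDegree_le_two (W : ℝ[X]) (h : W.natDegree ≤ 2) (x : ℝ) :
    W.eval x = W.coeff 0 + W.coeff 1 * x + W.coeff 2 * x ^ 2 := by
  rw [eval_eq_sum_range' (n := 3) (by omega)]
  simp [Finset.sum_range_succ]

/-- The linear polynomial `1 + b1 X`. -/
noncomputable def Up (b1 : ℝ) : ℝ[X] := 1 + C b1 * X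

theorem Up_ne (b1 : ℝ) : Up b1 ≠ 0 := by
  intro h
  have := congrArg (eval 0) h
  simp [Up] at this

theorem coprime_Up (b1 : ℝ) (W : ℝ[X]) (h : b1 ≠ 0 → W.eval (-1 / b1) ≠ 0) :
    IsCoprime W (Up b1) := by
  by_cases hb : b1 = 0
  · simp [Up, hb, isCoprime_one_right]
  · have e : Up b1 = C b1 * (X - C (-1 / b1)) := by
      rw [Up, mul_sub, ← C_mul]
      have : b1 * (-1 / b1) = -1 := by field_simp
      rw [this]; simp; ring
    rw [e]
    refine IsCoprime.mul_right ?_ ?_
    · exact ⟨0, C b1⁻¹, by rw [zero_mul, zero_add, ← C_mul, inv_mul_cancel₀ hb, C_1]⟩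
    · exact ((irreducible_X_sub_C _).coprime_iff_not_dvd.2
        (fun hd => h hb (dvd_iff_isRoot.1 hd))).symm

theorem poly_rat (b1 : ℝ) (D M : ℝ[X]) (hcop : IsCoprime D M) (hM0 : M.eval 0 = 0) (hM : M ≠ 0)
    (B : Set ℝ) (hB : B.Infinite)
    (hdvd : ∀ β ∈ B, ∃ v, D - C β * M ∣ Up b1 * (C v + C β * X) ^ 2) :
    ∃ d0 d1 n1 : ℝ, d0 ≠ 0 ∧ (∀ x, D.eval x = d0 + d1 * x) ∧ (∀ x, M.eval x = n1 * x) ∧
      ∃ S : Finset ℝ, ∀ β v, β ∉ S → D - C β * M ∣ Up b1 * (C v + C β * X) ^ 2 →
        β * (d0 + n1 * v) = d1 * v := by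
  classical
  have hnot : ∀ x, M.eval x = 0 → D.eval x ≠ 0 := by
    intro x hx hx'
    obtain ⟨p, q, hpq⟩ := hcop
    have := congrArg (eval x) hpq
    simp [hx, hx'] at this
  set ρ := -1 / b1
  set β0 := D.eval ρ / M.eval ρ
  have key : ∀ β v, β ≠ 0 → β ≠ β0 → D - C β * M ∣ Up b1 * (C v + C β * X) ^ 2 →
      D - C β * M ∣ (X - C (-v / β)) ^ 2 := by
    intro β v h0 h1 hd
    have hc : IsCoprime (D - C β * M) (Up b1) := by
      apply coprime_Up
      intro _ hz
      simp only [eval_sub, eval_mul, eval_C] at hz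
      by_cases hm : M.eval ρ = 0
      · exact hnot ρ hm (by rw [hm] at hz; simpa using hz)
      · exact h1 (by simp only [β0]; field_simp; linear_combination -hz)
    have h2 := hc.dvd_of_dvd_mul_left hd
    have e : (X - C (-v / β)) ^ 2 = (C v + C β * X) ^ 2 * C (β⁻¹ ^ 2) := by
      have e1 : X - C (-v / β) = (C v + C β * X) * C β⁻¹ := by
        rw [add_mul, mul_right_comm, ← C_mul, ← C_mul, mul_inv_cancel₀ h0]
        simp [div_eq_mul_inv]; ring
      rw [e1, mul_pow, map_pow]
    rw [e]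
    exact h2.mul_right _
  have hB' : (B \ {0, β0}).Infinite := hB.sdiff (Set.toFinite _)
  have hst : ∀ β ∈ B \ {0, β0}, (D - C β * M).natDegree ≤ 2 ∧
      (D.coeff 2 - β * M.coeff 2) * ((D.coeff 1 - β * M.coeff 1) ^ 2 -
        4 * (D.coeff 0 - β * M.coeff 0) * (D.coeff 2 - β * M.coeff 2)) = 0 := by
    intro β hβ
    obtain ⟨v, hv⟩ := hdvd β hβ.1
    have hβ2 := hβ.2
    simp only [mem_insert_iff, mem_singleton_iff, not_or] at hβ2
    have := sq_dvd_struct _ _ (key β v hβ2.1 hβ2.2 hv)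
    exact ⟨this.1, by simpa using this.2.1⟩
  obtain ⟨β1, hβ1, β2, hβ2, hne⟩ := hB'.nontrivial
  have hhigh : ∀ n, 2 < n → D.coeff n = 0 ∧ M.coeff n = 0 := by
    intro n hn
    have h1 := coeff_eq_zero_of_natDegree_lt ((hst β1 hβ1).1.trans_lt hn)
    have h2 := coeff_eq_zero_of_natDegree_lt ((hst β2 hβ2).1.trans_lt hn)
    simp only [coeff_sub, coeff_C_mul] at h1 h2
    have h3 : (β1 - β2) * M.coeff n = 0 := by linear_combination h2 - h1
    have h4 : M.coeff n = 0 := (mul_eq_zero.1 h3).resolve_left (sub_ne_zero.2 hne)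
    exact ⟨by rw [h4] at h1; simpa using h1, h4⟩
  have hD2 : D.natDegree ≤ 2 := natDegree_le_iff_coeff_eq_zero.2 fun n hn => (hhigh n hn).1
  have hM2 : M.natDegree ≤ 2 := natDegree_le_iff_coeff_eq_zero.2 fun n hn => (hhigh n hn).2
  have hn0 : M.coeff 0 = 0 := by rw [coeff_zero_eq_eval_zero]; exact hM0
  have hd0 : D.coeff 0 ≠ 0 := by rw [coeff_zero_eq_eval_zero]; exact hnot 0 hM0
  have hn12 : ¬ (M.coeff 1 = 0 ∧ M.coeff 2 = 0) := by
    rintro ⟨h1, h2⟩
    apply hM
    apply Polynomial.funext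
    intro x
    rw [eval_of_natDegree_le_two M hM2, hn0, h1, h2]; simp
  let p1 : ℝ[X] := C (D.coeff 2) - X * C (M.coeff 2)
  let p2 : ℝ[X] := (C (D.coeff 1) - X * C (M.coeff 1)) ^ 2 - 4 * C (D.coeff 0) * p1
  have hp : p1 * p2 = 0 := by
    apply eq_zero_of_infinite_isRoot
    refine hB'.mono fun β hβ => ?_
    have := (hst β hβ).2
    rw [hn0] at this
    simp only [mem_ofPred_eq, IsRoot.def, p1, p2, eval_mul, eval_sub, eval_C, eval_X, eval_pow,
      eval_ofNat]
    linear_combination this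
  have h22 : D.coeff 2 = 0 ∧ M.coeff 2 = 0 := by
    rcases mul_eq_zero.1 hp with h | h
    · have h0 := congrArg (eval 0) h
      have h1 := congrArg (eval 1) h
      simp only [p1, eval_mul, eval_sub, eval_C, eval_X, eval_zero] at h0 h1
      constructor <;> linarith
    · exfalso
      have h0 := congrArg (eval 0) h
      have h1 := congrArg (eval 1) h
      have h2 := congrArg (eval (-1)) h
      simp only [p1, p2, eval_mul, eval_sub, eval_C, eval_X, eval_zero, eval_pow,
        eval_ofNat] at h0 h1 h2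
      have h3 : M.coeff 1 ^ 2 = 0 := by linear_combination (h1 + h2 - 2 * h0) / 2
      have h4 : M.coeff 1 = 0 := pow_eq_zero_iff (two_ne_zero) |>.1 h3
      have h5 : D.coeff 0 * M.coeff 2 = 0 := by
        rw [h4] at h1 h2
        linear_combination (h1 - h2) / 8
      exact hn12 ⟨h4, (mul_eq_zero.1 h5).resolve_left hd0⟩
  have hn1 : M.coeff 1 ≠ 0 := fun h => hn12 ⟨h, h22.2⟩
  have eD : ∀ x, D.eval x = D.coeff 0 + D.coeff 1 * x := fun x => by
    rw [eval_of_natDegree_le_two D hD2, h22.1]; ring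
  have eM : ∀ x, M.eval x = M.coeff 1 * x := fun x => by
    rw [eval_of_natDegree_le_two M hM2, h22.2, hn0]; ring
  refine ⟨D.coeff 0, D.coeff 1, M.coeff 1, hd0, eD, eM,
    {0, β0, D.coeff 1 / M.coeff 1}, fun β v hβ hd => ?_⟩
  simp only [Finset.mem_insert, Finset.mem_singleton, not_or] at hβ
  have h1 := (sq_dvd_struct _ _ (key β v hβ.1 hβ.2.1 hd)).2.2 (by
    simp only [coeff_sub, coeff_C_mul]
    intro h
    exact hβ.2.2 (by field_simp; linear_combination -h))
  simp only [eval_sub, eval_mul, eval_C, eD, eM] at h1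
  have h0 := hβ.1
  field_simp at h1
  linear_combination h1

/-- Leading coefficient (up to `-Up`) of the intersection equation, as a quadratic in `a`. -/
noncomputable def Lam (v b s c : ℝ) : ℝ[X] :=
  (C v + C b * X) ^ 2 - C (s * v * b + (1 - c) * v ^ 2)

/-- Linear coefficient of the intersection equation. -/
noncomputable def gOne (b1 c1 s1 v b s c : ℝ) : ℝ[X] :=
  -(C b * (C c1 * X ^ 2 + C s1 * X) * (C v + C b * X)) - Up b1 * C s * (C v - C b * X) +
    2 * Up b1 * C (1 - c) * C v * X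

/-- Constant coefficient of the intersection equation. -/
noncomputable def gZero (b1 c1 s1 v b s c : ℝ) : ℝ[X] :=
  (C c1 * X ^ 2 + C s1 * X) * (C v + C b * X) - Up b1 * C s * X + Up b1 * C (1 - c) * X ^ 2

/-- Linear coefficient of the limiting equation. -/
noncomputable def eOne (b1 c1 s1 : ℝ) : ℝ[X] :=
  -(C b1 * (C c1 * X ^ 2 + C s1 * X) * Up b1) - Up b1 * C s1 * (1 - C b1 * X) -
    2 * Up b1 * C c1 * X

theorem pole_id (b1 c1 s1 v b s c : ℝ) :
    -(Up b1 * Lam v b s c) + C b * gOne b1 c1 s1 v b s c + C b ^ 2 * gZero b1 c1 s1 v b s c =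
      -(C c * (Up b1 * (C v + C b * X) ^ 2)) := by
  simp only [Lam, gOne, gZero, map_add, map_mul, map_sub, map_pow, map_one]
  ring

theorem dvd_of_rat (b1 c1 s1 v b s c : ℝ) (hc : c ≠ 0) (D M : ℝ[X]) (hcop : IsCoprime D M)
    (h : -(Up b1 * Lam v b s c) * M ^ 2 + gOne b1 c1 s1 v b s c * M * D +
      gZero b1 c1 s1 v b s c * D ^ 2 = 0) :
    D - C b * M ∣ Up b1 * (C v + C b * X) ^ 2 := by
  have hc2 : IsCoprime (D - C b * M) M := by
    have := hcop.add_mul_right_left (-C b)
    rwa [neg_mul, ← sub_eq_add_neg] at this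
  have h1 : D - C b * M ∣ M ^ 2 * (C c * (Up b1 * (C v + C b * X) ^ 2)) := by
    refine ⟨gOne b1 c1 s1 v b s c * M + gZero b1 c1 s1 v b s c * (D + C b * M), ?_⟩
    have := pole_id b1 c1 s1 v b s c
    linear_combination M ^ 2 * this - h
  have h2 := (hc2.pow_right (n := 2)).dvd_of_dvd_mul_left h1
  exact (IsUnit.dvd_mul_left (isUnit_C.2 (IsUnit.mk0 _ hc))).1 h2

theorem prop_case (b1 c1 s1 v b s c : ℝ) (hb : b ≠ 0) (e0 : ℝ[X])
    (h1 : Up b1 ^ 2 * gOne b1 c1 s1 v b s c = Lam v b s c * eOne b1 c1 s1)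
    (h0 : Up b1 ^ 2 * gZero b1 c1 s1 v b s c = Lam v b s c * e0) (hc : c ≠ 0) :
    C b * eOne b1 c1 s1 + C b ^ 2 * e0 = C (1 - c) * Up b1 ^ 3 := by
  set y : ℝ[X] := C v + C b * X with hy
  set k := s * v * b + (1 - c) * v ^ 2 with hk
  have hL : Lam v b s c = y ^ 2 - C k := rfl
  have hid : Lam v b s c * (-Up b1 ^ 3 + C b * eOne b1 c1 s1 + C b ^ 2 * e0) =
      -(C c * Up b1 ^ 3 * y ^ 2) := by
    have := pole_id b1 c1 s1 v b s c
    linear_combination Up b1 ^ 2 * this - C b * h1 - C b ^ 2 * h0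
  have hdeg : (Lam v b s c).natDegree = 2 := by
    have : Lam v b s c = C (b ^ 2) * X ^ 2 + C (2 * b * v) * X + C (v ^ 2 - k) := by
      rw [hL, hy]; simp only [map_mul, map_pow, map_sub, map_ofNat]; ring
    rw [this]
    exact natDegree_quadratic (pow_ne_zero 2 hb)
  have hk0 : k = 0 := by
    by_contra hk0
    have hcy : IsCoprime (Lam v b s c) y :=
      ⟨-C k⁻¹, C k⁻¹ * y, by
        rw [hL]
        have : C k⁻¹ * C k = (1 : ℝ[X]) := by rw [← C_mul, inv_mul_cancel₀ hk0, C_1]
        linear_combination this⟩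
    have hd : Lam v b s c ∣ Up b1 ^ 3 := by
      have h2 : Lam v b s c ∣ C c * Up b1 ^ 3 * y ^ 2 :=
        dvd_neg.1 ⟨_, hid.symm⟩
      have h3 := (hcy.pow_right (n := 2)).dvd_of_dvd_mul_right h2
      exact (IsUnit.dvd_mul_left (isUnit_C.2 (IsUnit.mk0 _ hc))).1 h3
    have hsep : (Lam v b s c).Separable := by
      rw [separable_def]
      have : derivative (Lam v b s c) = C (2 * b) * y := by
        rw [hL, hy]
        simp only [derivative_sub, derivative_C, derivative_sq, derivative_add, derivative_mul,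
          derivative_X, map_mul, map_ofNat]
        simp; ring
      rw [this]
      refine IsCoprime.mul_right ?_ hcy
      exact ⟨0, C (2 * b)⁻¹, by
        rw [zero_mul, zero_add, ← C_mul, inv_mul_cancel₀ (mul_ne_zero two_ne_zero hb), C_1]⟩
    have hd2 := (hsep.squarefree.dvd_pow_iff_dvd (by norm_num)).1 hd
    have h4 := natDegree_le_of_dvd hd2 (Up_ne b1)
    have h5 : (Up b1).natDegree ≤ 1 := by unfold Up; compute_degree
    omega
  have hy0 : y ^ 2 ≠ 0 := by
    intro h
    rw [hL, hk0, h] at hdeg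
    simp at hdeg
  rw [hL, hk0, C_0, sub_zero] at hid
  have h6 : -Up b1 ^ 3 + C b * eOne b1 c1 s1 + C b ^ 2 * e0 = -(C c * Up b1 ^ 3) := by
    apply mul_left_cancel₀ hy0
    linear_combination hid
  simp only [map_sub, map_one]
  linear_combination h6

end poly

section core

variable {E : Type*} [NormedAddCommGroup E] [NormedSpace ℝ E] {N : Set E}

omit [NormedAddCommGroup E] [NormedSpace ℝ E] in
/-- The case where all segments are parallel in the top view. -/
theorem core_a_zero {u v b s c : E → ℝ} (hinf : (u '' N).Infinite) (b1 c1 s1 : ℝ)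
    (hG : ∀ t ∈ N, ∀ t' ∈ N, (gZero b1 c1 s1 (v t') (b t') (s t') (c t')).eval (u t) = 0) :
    c1 = b1 * s1 ∨ ∀ t ∈ N, b t = b1 * v t := by
  by_cases hk : c1 = b1 * s1
  · exact Or.inl hk
  · right
    intro t' ht'
    have h := poly_eq_zero hinf _ fun t ht => hG t ht t' ht'
    have h1 := congrArg (eval 1) h
    have h2 := congrArg (eval (-1)) h
    have h3 := congrArg (eval 2) h
    simp only [gZero, Up, eval_add, eval_sub, eval_mul, eval_C, eval_X, eval_pow, eval_one,
      eval_zero] at h1 h2 h3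
    have e1 : s1 * v t' - s t' = 0 := by linear_combination h1 - h2 / 3 - h3 / 6
    have e2 : c1 * v t' + s1 * b t' - b1 * s t' + (1 - c t') = 0 := by
      linear_combination (h1 + h2) / 2
    have e3 : c1 * b t' + b1 * (1 - c t') = 0 := by
      linear_combination -h1 / 2 - h2 / 6 + h3 / 6
    have e4 : (c1 - b1 * s1) * (b t' - b1 * v t') = 0 := by
      linear_combination e3 - b1 * e2 + b1 ^ 2 * e1
    exact sub_eq_zero.1 ((mul_eq_zero.1 e4).resolve_left (sub_ne_zero.2 hk))

theorem core (hN : IsPreconnected N) (hNo : IsOpen N) {t0 : E} (ht0 : t0 ∈ N)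
    {u a v b s c : E → ℝ} (hu : AnalyticOnNhd ℝ u N) (ha : AnalyticOnNhd ℝ a N)
    (hv : AnalyticOnNhd ℝ v N) (hb : AnalyticOnNhd ℝ b N)
    (hu0 : u t0 = 0) (ha0 : a t0 = 0) (hb0 : b t0 = 0)
    (hinf : (u '' N).Infinite) (hv1 : ∃ t ∈ N, v t ≠ 0) (hc : ∀ t ∈ N, c t ≠ 0)
    (b1 c1 s1 : ℝ) (hU : ∀ t ∈ N, 1 + b1 * u t ≠ 0) (e0 : ℝ[X])
    (hE : ∀ t ∈ N, -((Up b1 ^ 3).eval (u t)) * a t ^ 2 + (eOne b1 c1 s1).eval (u t) * a t +
      e0.eval (u t) = 0)
    (hG : ∀ t ∈ N, ∀ t' ∈ N,
      -((Up b1 * Lam (v t') (b t') (s t') (c t')).eval (u t)) * a t ^ 2 +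
        (gOne b1 c1 s1 (v t') (b t') (s t') (c t')).eval (u t) * a t +
        (gZero b1 c1 s1 (v t') (b t') (s t') (c t')).eval (u t) = 0)
    (hb1 : ∀ d a1 : ℝ, (∀ t ∈ N, b t * (1 + a1 * v t) = d * v t) → d = b1) :
    (c1 = b1 * s1 ∧ ∀ t ∈ N, a t = 0) ∨
      ∃ a1 : ℝ, (∀ t ∈ N, a t * (1 + b1 * u t) = a1 * u t) ∧
        ∀ t ∈ N, b t * (1 + a1 * v t) = b1 * v t := by
  classical
  -- the case `a = 0`
  have caseA : (∀ t ∈ N, a t = 0) → (c1 = b1 * s1 ∧ ∀ t ∈ N, a t = 0) ∨
      ∃ a1 : ℝ, (∀ t ∈ N, a t * (1 + b1 * u t) = a1 * u t) ∧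
        ∀ t ∈ N, b t * (1 + a1 * v t) = b1 * v t := by
    intro h
    rcases core_a_zero hinf b1 c1 s1 (v := v) (b := b) (s := s) (c := c) (fun t ht t' ht' => by
      have := hG t ht t' ht'
      rw [h t ht] at this
      simpa using this) with h1 | h1
    · exact Or.inl ⟨h1, h⟩
    · exact Or.inr ⟨0, fun t ht => by simp [h t ht], fun t ht => by simp [h1 t ht]⟩
  have hUe : ∀ x, (Up b1).eval x = 1 + b1 * x := fun x => by simp [Up]
  -- the two linear combinations
  have hlin : ∀ t' ∈ N, ∀ t ∈ N,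
      (Up b1 ^ 2 * gOne b1 c1 s1 (v t') (b t') (s t') (c t') -
        Lam (v t') (b t') (s t') (c t') * eOne b1 c1 s1).eval (u t) * a t =
      (-(Up b1 ^ 2 * gZero b1 c1 s1 (v t') (b t') (s t') (c t') -
        Lam (v t') (b t') (s t') (c t') * e0)).eval (u t) := by
    intro t' ht' t ht
    have h1 := hE t ht
    have h2 := hG t ht t' ht'
    simp only [eval_neg, eval_sub, eval_mul, eval_pow] at h1 h2 ⊢
    linear_combination (eval (u t) (Up b1)) ^ 2 * h2 -
      eval (u t) (Lam (v t') (b t') (s t') (c t')) * h1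
  by_cases hrat : ∃ t' ∈ N, Up b1 ^ 2 * gOne b1 c1 s1 (v t') (b t') (s t') (c t') -
      Lam (v t') (b t') (s t') (c t') * eOne b1 c1 s1 ≠ 0
  · -- rational case
    obtain ⟨t1, ht1, hne⟩ := hrat
    obtain ⟨D, M, hcop, hDM⟩ := rat_reduce hN hNo hu ha hinf hne (hlin t1 ht1)
    have hM0 : M.eval 0 = 0 := by
      have := hDM t0 ht0
      rw [ha0, hu0, mul_zero] at this
      exact this.symm
    have hpoly : ∀ t' ∈ N, -(Up b1 * Lam (v t') (b t') (s t') (c t')) * M ^ 2 +
        gOne b1 c1 s1 (v t') (b t') (s t') (c t') * M * D +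
        gZero b1 c1 s1 (v t') (b t') (s t') (c t') * D ^ 2 = 0 := by
      intro t' ht'
      refine poly_eq_zero hinf _ fun t ht => ?_
      have h2 := hG t ht t' ht'
      simp only [eval_neg, eval_add, eval_mul, eval_pow] at h2 ⊢
      rw [← hDM t ht]
      linear_combination (eval (u t) D) ^ 2 * h2
    have hdvd : ∀ t' ∈ N, D - C (b t') * M ∣ Up b1 * (C (v t') + C (b t') * X) ^ 2 :=
      fun t' ht' => dvd_of_rat b1 c1 s1 _ _ _ _ (hc t' ht') D M hcop (hpoly t' ht')
    by_cases hM : M = 0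
    · apply caseA
      intro t ht
      have h1 := hDM t ht
      rw [hM] at h1 hcop
      obtain ⟨k, hk, hkD⟩ := Polynomial.isUnit_iff.1 (isCoprime_zero_right.1 hcop)
      rw [← hkD] at h1
      simp only [eval_C, eval_zero] at h1
      exact (mul_eq_zero.1 h1).resolve_left hk.ne_zero
    by_cases hbz : ∀ t ∈ N, b t = 0
    · -- all arcs parallel in the top view
      have hb10 : b1 = 0 := (hb1 0 0 fun t ht => by simp [hbz t ht]).symm
      obtain ⟨t2, ht2, hv2⟩ := hv1
      have h1 := hdvd t2 ht2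
      rw [hbz t2 ht2, hb10] at h1
      simp only [Up, map_zero, zero_mul, sub_zero, add_zero, one_mul] at h1
      obtain ⟨k, hk, hkD⟩ := Polynomial.isUnit_iff.1
        (isUnit_of_dvd_unit h1 ((isUnit_C.2 (IsUnit.mk0 _ hv2)).pow 2))
      have hdeg : M.natDegree ≤ 1 := by
        by_contra hlt
        push Not at hlt
        have h2 := hpoly t2 ht2
        rw [hbz t2 ht2, hb10, ← hkD] at h2
        have e : C (c t2 * v t2 ^ 2) * M ^ 2 =
            (C (-(s t2 * v t2 * k)) + C (2 * (1 - c t2) * v t2 * k) * X) * M +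
              (C ((s1 * v t2 - s t2) * k ^ 2) * X + C ((c1 * v t2 + (1 - c t2)) * k ^ 2) * X ^ 2) := by
          simp only [Up, Lam, gOne, gZero, map_zero, map_add, map_mul, map_sub, map_pow, map_one,
            map_neg, map_ofNat] at h2 ⊢
          linear_combination -h2
        have d1 : (C (c t2 * v t2 ^ 2) * M ^ 2).natDegree = 2 * M.natDegree := by
          rw [natDegree_C_mul (mul_ne_zero (hc t2 ht2) (pow_ne_zero 2 hv2)), natDegree_pow]
        have d2 : ((C (-(s t2 * v t2 * k)) + C (2 * (1 - c t2) * v t2 * k) * X) * M).natDegree ≤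
            1 + M.natDegree := by
          refine natDegree_mul_le.trans (Nat.add_le_add_right ?_ _)
          compute_degree
        have d3 : (C ((s1 * v t2 - s t2) * k ^ 2) * X +
            C ((c1 * v t2 + (1 - c t2)) * k ^ 2) * X ^ 2).natDegree ≤ 2 := by compute_degree
        have d4 := natDegree_add_le_of_le d2 d3
        rw [← e, d1] at d4
        omega
      right
      refine ⟨M.coeff 1 / k, fun t ht => ?_, fun t ht => by simp [hbz t ht, hb10]⟩
      have h2 := hDM t ht
      rw [← hkD, eval_of_natDegree_le_two M (by omega),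
        coeff_eq_zero_of_natDegree_lt (n := 2) (by omega), coeff_zero_eq_eval_zero, hM0] at h2
      simp only [eval_C] at h2
      have := hk.ne_zero
      rw [hb10]
      field_simp
      linear_combination h2
    · push Not at hbz
      obtain ⟨t2, ht2, hb2⟩ := hbz
      have hBinf : (b '' N).Infinite :=
        infinite_image_of_ne hN hb.continuousOn ht0 ht2 (by rw [hb0]; exact hb2.symm)
      obtain ⟨d0, d1, n1, hd0, eD, eM, S, hS⟩ := poly_rat b1 D M hcop hM0 hM _ hBinf (by
        rintro _ ⟨t', ht', rfl⟩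
        exact ⟨_, hdvd t' ht'⟩)
      have h1 := an_eq_zero_off_finite hN hNo hb
        (g := fun t => b t * (1 + n1 / d0 * v t) - d1 / d0 * v t)
        ((hb.mul (analyticOnNhd_const.add (analyticOnNhd_const.mul hv))).sub
          (analyticOnNhd_const.mul hv)) hBinf S (fun t ht hm => by
            have := hS _ _ hm (hdvd t ht)
            field_simp
            linear_combination this)
      have h2 : ∀ t ∈ N, b t * (1 + n1 / d0 * v t) = d1 / d0 * v t :=
        fun t ht => sub_eq_zero.1 (h1 t ht)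
      have h3 := hb1 _ _ h2
      right
      refine ⟨n1 / d0, fun t ht => ?_, fun t ht => by rw [h2 t ht, h3]⟩
      have h4 := hDM t ht
      rw [eD, eM] at h4
      rw [← h3]
      field_simp
      linear_combination h4
  · -- proportional case
    push Not at hrat
    have h1 : ∀ t' ∈ N, Up b1 ^ 2 * gOne b1 c1 s1 (v t') (b t') (s t') (c t') =
        Lam (v t') (b t') (s t') (c t') * eOne b1 c1 s1 :=
      fun t' ht' => sub_eq_zero.1 (hrat t' ht')
    have h0 : ∀ t' ∈ N, Up b1 ^ 2 * gZero b1 c1 s1 (v t') (b t') (s t') (c t') =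
        Lam (v t') (b t') (s t') (c t') * e0 := by
      intro t' ht'
      have := poly_eq_zero hinf _ fun t ht => by
        have h := hlin t' ht' t ht
        rw [hrat t' ht', eval_zero, zero_mul] at h
        exact h.symm
      exact sub_eq_zero.1 (neg_eq_zero.1 this)
    by_cases hbz : ∀ t ∈ N, b t = 0
    · have hb10 : b1 = 0 := (hb1 0 0 fun t ht => by simp [hbz t ht]).symm
      obtain ⟨t2, ht2, hv2⟩ := hv1
      have h11 := h1 t2 ht2
      have h01 := h0 t2 ht2
      rw [hbz t2 ht2, hb10] at h11 h01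
      have f0 := congrArg (eval 0) h11
      have f1 := congrArg (eval 1) h11
      simp only [Up, Lam, gOne, eOne, eval_add, eval_sub, eval_mul, eval_C, eval_X, eval_pow,
        eval_one, eval_neg, eval_ofNat] at f0 f1
      have g0 : s t2 = c t2 * v t2 * s1 := by
        apply mul_left_cancel₀ hv2
        linear_combination -f0
      have g1 : 1 - c t2 = -(c1 * c t2 * v t2) := by
        apply mul_left_cancel₀ hv2
        linear_combination (f1 - f0) / 2
      have hfac : ∀ t ∈ N, (a t + c1 * u t) * (a t + c1 * u t + s1) = 0 := by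
        intro t ht
        have f2 := congrArg (eval (u t)) h01
        have f3 := hE t ht
        rw [hb10] at f3
        simp only [Up, Lam, gZero, eOne, eval_add, eval_sub, eval_mul, eval_C, eval_X, eval_pow,
          eval_one, eval_neg, eval_ofNat] at f2 f3
        have g2 : eval (u t) e0 = -(c1 * (c1 * u t ^ 2 + s1 * u t)) := by
          apply mul_left_cancel₀ (mul_ne_zero (hc t2 ht2) (pow_ne_zero 2 hv2))
          rw [g0] at f2
          linear_combination -f2 + (u t ^ 2 + v t2 * (c1 * u t ^ 2 + s1 * u t)) * g1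
        rw [g2] at f3
        linear_combination -f3
      have han : AnalyticOnNhd ℝ (fun t => a t + c1 * u t) N :=
        ha.add (analyticOnNhd_const.mul hu)
      have hz : ∀ t ∈ N, a t + c1 * u t = 0 := by
        rcases an_mul_eq_zero hN hNo han (han.add analyticOnNhd_const) hfac with h | h
        · exact h
        · have hs := h t0 ht0
          simp only [Pi.add_apply, ha0, hu0, mul_zero, zero_add] at hs
          intro t ht
          have := h t ht
          simp only [Pi.add_apply, hs, add_zero] at this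
          exact this
      right
      refine ⟨-c1, fun t ht => ?_, fun t ht => by simp [hbz t ht, hb10]⟩
      rw [hb10]
      linear_combination hz t ht
    · push Not at hbz
      obtain ⟨t2, ht2, hb2⟩ := hbz
      have hBinf : (b '' N).Infinite :=
        infinite_image_of_ne hN hb.continuousOn ht0 ht2 (by rw [hb0]; exact hb2.symm)
      obtain ⟨β1, hβ1, β2, hβ2, hne⟩ := (hBinf.sdiff (Set.finite_singleton 0)).nontrivial
      obtain ⟨⟨t3, ht3, rfl⟩, h3⟩ := hβ1
      obtain ⟨⟨t4, ht4, rfl⟩, h4⟩ := hβ2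
      simp only [mem_singleton_iff] at h3 h4
      have p3 := prop_case b1 c1 s1 _ _ _ _ h3 e0 (h1 t3 ht3) (h0 t3 ht3) (hc t3 ht3)
      have p4 := prop_case b1 c1 s1 _ _ _ _ h4 e0 (h1 t4 ht4) (h0 t4 ht4) (hc t4 ht4)
      have hsub : b t3 - b t4 ≠ 0 := sub_ne_zero.2 hne
      set φ0 := ((1 - c t3) / b t3 - (1 - c t4) / b t4) / (b t3 - b t4) with hφ0
      set φ1 := (1 - c t3) / b t3 - b t3 * φ0 with hφ1
      have hq : ∀ t ∈ N, a t ^ 2 - φ1 * a t - φ0 = 0 := by
        intro t ht
        have q3 := congrArg (eval (u t)) p3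
        have q4 := congrArg (eval (u t)) p4
        have q := hE t ht
        simp only [eval_add, eval_mul, eval_C, eval_pow] at q3 q4 q
        have r0 : eval (u t) e0 = φ0 * eval (u t) (Up b1) ^ 3 := by
          rw [hφ0]
          field_simp
          linear_combination b t4 * q3 - b t3 * q4
        have r1 : eval (u t) (eOne b1 c1 s1) = φ1 * eval (u t) (Up b1) ^ 3 := by
          rw [hφ1]
          rw [r0] at q3
          field_simp
          linear_combination q3
        rw [r0, r1] at q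
        apply mul_left_cancel₀ (pow_ne_zero 3 (hU t ht))
        rw [hUe] at q
        linear_combination -q
      have hφ00 : φ0 = 0 := by
        have := hq t0 ht0
        rw [ha0] at this
        linear_combination -this
      apply caseA
      rcases an_mul_eq_zero hN hNo ha (ha.sub (analyticOnNhd_const (v := φ1))) (fun t ht => by
        have := hq t ht
        rw [hφ00] at this
        simp only [Pi.sub_apply]
        linear_combination this) with h | h
      · exact h
      · have hs := h t0 ht0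
        simp only [Pi.sub_apply, ha0, zero_sub, neg_eq_zero] at hs
        intro t ht
        have := h t ht
        simp only [Pi.sub_apply, hs, sub_zero] at this
        exact this

end core

end Pool.Agent.P.MP_67bdec_gt
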