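import Pool.Agent.P.MP_67bdec_gt.Sheet

/-!
The counterexample on the hyperbolic paraboloid `z = x y`.
-/

namespace Pool.Agent.P.MP_67bdec_gt

open Set Filter Topology MeasureTheory Polynomial

/-- The quadrant `x, y > 0` of `z = x y`, with segments along `x = const` and arcs over the lines
`y = v + v ^ 3 x`. -/
noncomputable def cex : Data where
  D := {t | 0 < t.1 ∧ 0 < t.2}
  F t := (t.1, t.2 + t.1 * t.2 ^ 3, t.1 * (t.2 + t.1 * t.2 ^ 3))
  A t := (t.1, (t.2 + t.1 * t.2 ^ 3) / 2, t.1 * ((t.2 + t.1 * t.2 ^ 3) / 2))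
  B t := (t.1, 2 * (t.2 + t.1 * t.2 ^ 3), t.1 * (2 * (t.2 + t.1 * t.2 ^ 3)))
  x0 _ := 0
  y0 t := t.2
  a _ := 1
  b t := t.2 ^ 3
  c t := t.2 ^ 3
  d t := t.2
  e _ := 0
  lo t := t.1 / 2
  hi t := 2 * t.1

theorem cex_S : cex.S = {p | 0 < p.1 ∧ 0 < p.2.1 ∧ p.2.2 = p.1 * p.2.1} := by
  ext ⟨x, y, z⟩
  constructor
  · rintro ⟨⟨u, v⟩, ⟨hu, hv⟩, he⟩
    simp only [cex, Prod.mk.injEq] at he hu hv
    obtain ⟨rfl, rfl, rfl⟩ := he
    exact ⟨hu, by simp only; positivity, rfl⟩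
  · rintro ⟨hx, hy, hz⟩
    simp only at hx hy hz
    have hc : ContinuousOn (fun v : ℝ => v + x * v ^ 3) (Icc 0 y) := by fun_prop
    obtain ⟨v, hv, he⟩ := intermediate_value_Icc hy.le hc (show y ∈ Icc _ _ from
      ⟨by simpa using hy.le, by simp only [le_add_iff_nonneg_right]; positivity⟩)
    simp only at he
    have hv0 : 0 < v := by
      rcases hv.1.eq_or_lt with h | h
      · rw [← h] at he; simp at he; linarith
      · exact h
    exact ⟨(x, v), ⟨hx, hv0⟩, by simp only [cex, he, hz]⟩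

theorem cex_par (t : R2) (τ : ℝ) : cex.par t τ = cex.F (τ, t.2) := by
  simp only [Data.par, cex, Prod.mk.injEq]
  refine ⟨by ring, by ring, by ring⟩

theorem cex_any (t : R2) : AnalyticAt ℝ (fun t : R2 => t.2 + t.1 * t.2 ^ 3) t :=
  analyticAt_snd.add (analyticAt_fst.mul (analyticAt_snd.pow 3))

theorem cex_anF : AnalyticOnNhd ℝ cex.F cex.D := fun t _ =>
  analyticAt_fst.prod ((cex_any t).prod (analyticAt_fst.mul (cex_any t)))

theorem cex_top_inj (t : R2) (ht : t ∈ cex.D) :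
    Function.Injective (fderiv ℝ (fun t => topv (cex.F t)) t) := by
  have h : HasFDerivAt (fun t : R2 => (t.1, t.2 + t.1 * t.2 ^ 3)) _ t :=
    hasFDerivAt_fst.prodMk (hasFDerivAt_snd.fun_add
      (hasFDerivAt_fst.fun_mul ((hasFDerivAt_snd (𝕜 := ℝ) (p := t)).pow 3)))
  have e : (fun t => topv (cex.F t)) = fun t : R2 => (t.1, t.2 + t.1 * t.2 ^ 3) := rfl
  rw [e, h.fderiv]
  refine (injective_iff_map_eq_zero _).2 fun k hk => ?_
  simp only [ContinuousLinearMap.prod_apply, add_apply, smul_apply, ContinuousLinearMap.coe_fst',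
    ContinuousLinearMap.coe_snd', smul_eq_mul, Prod.mk_eq_zero, nsmul_eq_mul] at hk
  obtain ⟨h1, h2⟩ := hk
  obtain ⟨p1, p2⟩ := ht
  refine Prod.ext h1 ?_
  apply mul_left_cancel₀ (show 1 + 3 * t.1 * t.2 ^ 2 ≠ 0 by positivity)
  rw [h1] at h2
  simp only [Prod.snd_zero]
  norm_num at h2
  linear_combination h2

theorem cex_isLP : cex.IsLP where
  isOpen := (isOpen_lt continuous_const continuous_fst).inter
    (isOpen_lt continuous_const continuous_snd)
  conn := by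
    have : cex.D = Ioi 0 ×ˢ Ioi 0 := rfl
    rw [this]
    exact isConnected_Ioi.prod isConnected_Ioi
  anF := cex_anF
  imm t ht := by
    have h := cex_top_inj t ht
    have h1 : fderiv ℝ (fun t => topv (cex.F t)) t = topv.comp (fderiv ℝ cex.F t) :=
      (topv.hasFDerivAt.comp t (cex_anF t ht).differentiableAt.hasFDerivAt).fderiv
    rw [h1] at h
    exact Function.Injective.of_comp (f := topv) h
  anA t _ := analyticAt_fst.prod (((cex_any t).div_const (c := 2)).prod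
    (analyticAt_fst.mul ((cex_any t).div_const (c := 2))))
  anB t _ := analyticAt_fst.prod ((analyticAt_const.mul (cex_any t)).prod
    (analyticAt_fst.mul (analyticAt_const.mul (cex_any t))))
  anx0 t _ := analyticAt_const
  any0 t _ := analyticAt_snd
  ana t _ := analyticAt_const
  anb t _ := analyticAt_snd.pow 3
  anc t _ := analyticAt_snd.pow 3
  and t _ := analyticAt_snd
  ane t _ := analyticAt_const
  anlo t _ := analyticAt_fst.div_const (c := 2)
  anhi t _ := analyticAt_const.mul analyticAt_fst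
  seg_ne t ht h := by
    obtain ⟨p1, p2⟩ := ht
    simp only [cex, Prod.mk.injEq] at h
    have : 0 < t.2 + t.1 * t.2 ^ 3 := by positivity
    linarith [h.2.1]
  dir_ne t _ := by simp [cex]
  c_ne t ht := pow_ne_zero 3 ht.2.ne'
  lo_lt t ht := by
    have := ht.1
    simp only [cex]; linarith
  mem_seg t _ := by
    refine ⟨2 / 3, 1 / 3, by norm_num, by norm_num, by norm_num, ?_⟩
    simp only [cex, Prod.smul_mk, Prod.mk_add_mk, smul_eq_mul, Prod.mk.injEq]
    refine ⟨by ring, by ring, by ring⟩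
  mem_arc t ht := by
    have := ht.1
    exact ⟨t.1, ⟨by simp only [cex]; linarith, by simp only [cex]; linarith⟩, cex_par t t.1⟩
  seg_sub t ht := by
    obtain ⟨p1, p2⟩ := ht
    rintro _ ⟨α, β, hα, hβ, hab, rfl⟩
    rw [cex_S]
    have hy : 0 < t.2 + t.1 * t.2 ^ 3 := by positivity
    simp only [cex, Prod.smul_mk, Prod.mk_add_mk, smul_eq_mul, mem_ofPred_eq]
    refine ⟨by rw [← add_mul, hab]; linarith, by nlinarith, ?_⟩
    rw [← add_mul, hab]; ring
  arc_sub t ht := by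
    rintro _ ⟨τ, hτ, rfl⟩
    rw [cex_par]
    have h1 := ht.1
    have h2 : t.1 / 2 < τ := hτ.1
    exact ⟨(τ, t.2), ⟨by simp only; linarith, ht.2⟩, rfl⟩
  transv t ht τ _ k h := by
    obtain ⟨p1, p2⟩ := ht
    simp only [cex, Prod.smul_mk, Prod.mk_sub_mk, smul_eq_mul, Prod.mk.injEq] at h
    have hy : 0 < t.2 + t.1 * t.2 ^ 3 := by positivity
    have hk : k = 0 := by linarith [h.1]
    have := h.2.1
    rw [hk] at this
    linarith

theorem cex_injOn : InjOn cex.F cex.D := by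
  rintro ⟨u, v⟩ ⟨hu, hv⟩ ⟨u', v'⟩ ⟨hu', hv'⟩ h
  simp only [cex, Prod.mk.injEq] at h hu hv hu' hv'
  obtain ⟨rfl, h, -⟩ := h
  refine Prod.ext rfl ?_
  have h1 : (v - v') * (1 + u * (v ^ 2 + v * v' + v' ^ 2)) = 0 := by linear_combination h
  exact sub_eq_zero.1 ((mul_eq_zero.1 h1).resolve_right (by positivity))

theorem dimH_preimage_an {Θ : R2 → R2} {D : Set R2} (hΘ : AnalyticOnNhd ℝ Θ D)
    (hinj : ∀ t ∈ D, Function.Injective (fderiv ℝ Θ t)) (Z : Set R2) :
    dimH (D ∩ Θ ⁻¹' Z) ≤ dimH Z := by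
  refine dimH_le_of_local fun p hp => ?_
  obtain ⟨Ω, hΩ, -, hleft, -⟩ := an_local_inverse (hΘ p hp.1) (hinj p hp.1)
  let W := {q | AnalyticAt ℝ Ω q}
  have hW : W ∈ 𝓝 (Θ p) := hΩ.eventually_analyticAt
  refine ⟨({t | Ω (Θ t) = t} ∩ Θ ⁻¹' W) ∩ (D ∩ Θ ⁻¹' Z), inter_mem (mem_nhdsWithin_of_mem_nhds
    (inter_mem hleft ((hΘ p hp.1).continuousAt hW))) self_mem_nhdsWithin, ?_⟩
  refine le_trans (dimH_mono (t := Ω '' (W ∩ Z)) ?_) ((dimH_image_an (D := W) (fun q hq => hq)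
    inter_subset_left).trans (dimH_mono inter_subset_right))
  rintro t ⟨⟨h1, h2⟩, -, h3⟩
  exact ⟨Θ t, ⟨h2, h3⟩, h1⟩

theorem many_leaves {E : Set R3} (hE : dimH E ≤ 1) :
    {v : ℝ | 0 < v ∧ ∃ u1 ∈ Ioo (1 : ℝ) 2, ∃ u2 ∈ Ioo (1 : ℝ) 2, u1 ≠ u2 ∧
      cex.F (u1, v) ∉ E ∧ cex.F (u2, v) ∉ E}.Infinite := by
  have h1 : dimH (cex.D ∩ (fun t => topv (cex.F t)) ⁻¹' (topv '' E)) ≤ 1 :=
    (dimH_preimage_an (fun t ht => (topv.analyticAt _).comp (cex_anF t ht)) cex_top_inj _).trans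
      ((topv.lipschitz.dimH_image_le E).trans hE)
  have h2 : volume (cex.D ∩ (fun t => topv (cex.F t)) ⁻¹' (topv '' E)) = 0 := by
    refine measure_zero_of_dimH_lt (d := 2) ?_ (h1.trans_lt (by norm_num))
    rw [show ((2 : NNReal) : ℝ) = 2 from rfl, hausdorffMeasure_prod_real]
  have h3 : ∀ᵐ t : R2 ∂(volume.prod volume),
      t ∉ cex.D ∩ (fun t => topv (cex.F t)) ⁻¹' (topv '' E) := measure_eq_zero_iff_ae_notMem.1 h2
  have h4 := Measure.ae_ae_of_ae_prod
    ((Measure.measurePreserving_swap (μ := (volume : Measure ℝ))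
      (ν := (volume : Measure ℝ))).quasiMeasurePreserving.ae h3)
  intro hfin
  have h5 := measure_eq_zero_iff_ae_notMem.1 (hfin.measure_zero (volume : Measure ℝ))
  obtain ⟨v, hv, h6, h7⟩ := Measure.exists_mem_of_measure_ne_zero_of_ae
    (μ := (volume : Measure ℝ)) (s := Ioo 1 2) (by simp) (ae_restrict_of_ae (h4.and h5))
  obtain ⟨u1, hu1, k1⟩ := Measure.exists_mem_of_measure_ne_zero_of_ae
    (μ := (volume : Measure ℝ)) (s := Ioo 1 (3 / 2)) (by norm_num) (ae_restrict_of_ae h6)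
  obtain ⟨u2, hu2, k2⟩ := Measure.exists_mem_of_measure_ne_zero_of_ae
    (μ := (volume : Measure ℝ)) (s := Ioo (3 / 2) 2) (by norm_num) (ae_restrict_of_ae h6)
  have hv0 : 0 < v := by linarith [hv.1]
  exact h7 ⟨hv0, u1, ⟨hu1.1, by linarith [hu1.2]⟩, u2, ⟨by linarith [hu2.1], hu2.2⟩,
    by linarith [hu1.2, hu2.1] , fun h => k1 ⟨⟨by simp only [Prod.fst_swap]; linarith [hu1.1], hv0⟩,
      _, h, rfl⟩, fun h => k2 ⟨⟨by simp only [Prod.fst_swap]; linarith [hu2.1], hv0⟩, _, h, rfl⟩⟩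

theorem six_quartics (f : Fin 6 → ℝ[X]) (hf : ∀ i, (f i).natDegree ≤ 4) :
    ∃ k : Fin 6 → ℝ, k ≠ 0 ∧ ∑ i, k i • f i = 0 := by
  let T : (Fin 6 → ℝ) →ₗ[ℝ] (Fin 5 → ℝ) :=
    LinearMap.pi fun j : Fin 5 => (lcoeff ℝ (j : ℕ)).comp (Fintype.linearCombination ℝ f)
  obtain ⟨k, hk, hk0⟩ := (Submodule.ne_bot_iff _).1
    (LinearMap.ker_ne_bot_of_finrank_lt (f := T) (by simp))
  refine ⟨k, hk0, ?_⟩
  ext n
  by_cases hn : n < 5
  · have := congrFun (LinearMap.mem_ker.1 hk) ⟨n, hn⟩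
    simpa [T, Fintype.linearCombination_apply] using this
  · simp only [finsetSum_coeff, coeff_smul, coeff_zero]
    refine Finset.sum_eq_zero fun i _ => ?_
    rw [coeff_eq_zero_of_natDegree_lt ((hf i).trans_lt (by omega)), smul_zero]

theorem cex_not_param : ¬ cex.Param := by
  rintro ⟨Φ, E, hE, hall⟩
  -- homogeneous top view: `A(w) + s B(w)`
  let A1 : ℝ[X] := C (Φ.P 0 0) + C (Φ.P 0 1) * X
  let B1 : ℝ[X] := C (Φ.P 1 0) + C (Φ.P 1 1) * X
  let A2 : ℝ[X] := C (Φ.Q 0 0) + C (Φ.Q 0 1) * X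
  let B2 : ℝ[X] := C (Φ.Q 1 0) + C (Φ.Q 1 1) * X
  let A3 : ℝ[X] := C (Φ.U 0 0 * Φ.V 0 0) + C (Φ.U 0 0 * Φ.V 0 1) * X
  let B3 : ℝ[X] := C (Φ.U 1 0 * Φ.V 0 0) + C (Φ.U 1 0 * Φ.V 0 1) * X
  have eP : ∀ s w, Φ.P.ev s w = A1.eval w + s * B1.eval w := fun s w => by
    simp [Pol.ev, Fin.sum_univ_succ, A1, B1]; ring
  have eQ : ∀ s w, Φ.Q.ev s w = A2.eval w + s * B2.eval w := fun s w => by
    simp [Pol.ev, Fin.sum_univ_succ, A2, B2]; ring
  have eW : ∀ s w, Φ.U.ev s w * Φ.V.ev s w = A3.eval w + s * B3.eval w := fun s w => by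
    simp [Pol.ev, Fin.sum_univ_succ, A3, B3]; ring
  let m1 := A2 * B3 - A3 * B2
  let m2 := A3 * B1 - A1 * B3
  let m3 := A1 * B2 - A2 * B1
  have d1 : m1.natDegree ≤ 2 := by simp only [m1, A2, B3, A3, B2]; compute_degree
  have d2 : m2.natDegree ≤ 2 := by simp only [m2, A1, B3, A3, B1]; compute_degree
  have d3 : m3.natDegree ≤ 2 := by simp only [m3, A2, B1, A1, B2]; compute_degree
  have dm : ∀ p q : ℝ[X], p.natDegree ≤ 2 → q.natDegree ≤ 2 → (p * q).natDegree ≤ 4 :=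
    fun p q hp hq => natDegree_mul_le.trans (by omega)
  obtain ⟨k, hk0, hk⟩ := six_quartics ![m1 * m1, m2 * m2, m3 * m3, m1 * m2, m1 * m3, m2 * m3] (by
    intro i
    fin_cases i
    · exact dm _ _ d1 d1
    · exact dm _ _ d2 d2
    · exact dm _ _ d3 d3
    · exact dm _ _ d1 d2
    · exact dm _ _ d1 d3
    · exact dm _ _ d2 d3)
  let K : ℝ[X] := C (k 0) * X ^ 6 + C (k 1) + C (k 2) * X ^ 2 - C (k 3) * X ^ 3 +
    C (k 4) * X ^ 4 - C (k 5) * X
  have hK : K = 0 := by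
    refine eq_zero_of_infinite_isRoot _ ((many_leaves hE).mono ?_)
    rintro v ⟨hv, u1, hu1, u2, hu2, hne, n1, n2⟩
    obtain ⟨-, w, -, -, -, harc⟩ := hall (u1, v) ⟨by simp only; linarith [hu1.1], hv⟩ n1
    have mem : ∀ u ∈ Ioo (1 : ℝ) 2, cex.F (u, v) ∉ E → ∃ s, A3.eval w + s * B3.eval w ≠ 0 ∧
        u * (A3.eval w + s * B3.eval w) = A1.eval w + s * B1.eval w ∧
        (v + u * v ^ 3) * (A3.eval w + s * B3.eval w) = A2.eval w + s * B2.eval w := by
      intro u hu hn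
      obtain ⟨s, hs, he⟩ := harc (show cex.F (u, v) ∈ cex.arc (u1, v) \ E from
        ⟨⟨u, ⟨by simp only [cex]; linarith [hu.1, hu1.2], by simp only [cex]; linarith [hu.2, hu1.1]⟩,
          cex_par _ _⟩, hn⟩)
      simp only [RatMap.dom, eW] at hs
      simp only [cex, RatMap.pt, Prod.mk.injEq, eW, eP, eQ] at he
      exact ⟨s, hs, by rw [he.1]; field_simp, by rw [he.2.1]; field_simp⟩
    obtain ⟨s1, w1, x1, y1⟩ := mem u1 hu1 n1
    obtain ⟨s2, w2, x2, y2⟩ := mem u2 hu2 n2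
    have ek := congrArg (eval w) hk
    simp only [Fin.sum_univ_succ, Matrix.cons_val_zero, Matrix.cons_val_succ, eval_add, eval_smul,
      eval_mul, smul_eq_mul, Finset.univ_eq_empty, Finset.sum_empty, eval_zero] at ek
    have f1 : m1.eval w = A2.eval w * B3.eval w - A3.eval w * B2.eval w := by simp [m1]
    have f2 : m2.eval w = A3.eval w * B1.eval w - A1.eval w * B3.eval w := by simp [m2]
    have f3 : m3.eval w = A1.eval w * B2.eval w - A2.eval w * B1.eval w := by simp [m3]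
    have l1 : m1.eval w * u1 + m2.eval w * (v + u1 * v ^ 3) + m3.eval w = 0 := by
      apply mul_left_cancel₀ w1
      linear_combination m1.eval w * x1 + m2.eval w * y1 + (A1.eval w + s1 * B1.eval w) * f1 +
        (A2.eval w + s1 * B2.eval w) * f2 + (A3.eval w + s1 * B3.eval w) * f3
    have l2 : m1.eval w * u2 + m2.eval w * (v + u2 * v ^ 3) + m3.eval w = 0 := by
      apply mul_left_cancel₀ w2
      linear_combination m1.eval w * x2 + m2.eval w * y2 + (A1.eval w + s2 * B1.eval w) * f1 +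
        (A2.eval w + s2 * B2.eval w) * f2 + (A3.eval w + s2 * B3.eval w) * f3
    have g1 : m1.eval w = -(v ^ 3 * m2.eval w) := by
      apply mul_left_cancel₀ (sub_ne_zero.2 hne)
      linear_combination l1 - l2
    have g3 : m3.eval w = -(v * m2.eval w) := by
      rw [g1] at l1
      linear_combination l1
    have g2 : m2.eval w ≠ 0 := by
      intro h
      apply mul_ne_zero (mul_ne_zero (sub_ne_zero.2 hne) w1) w2
      rw [h] at f2
      linear_combination (A3.eval w + s2 * B3.eval w) * x1 - (A3.eval w + s1 * B3.eval w) * x2 -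
        (s1 - s2) * f2
    rw [g1, g3] at ek
    simp only [mem_ofPred_eq, IsRoot.def, K, eval_add, eval_sub, eval_mul, eval_C, eval_X,
      eval_pow]
    apply mul_left_cancel₀ (pow_ne_zero 2 g2)
    simp only [Fin.succ_zero_eq_one, Fin.succ_one_eq_two, Fin.reduceSucc] at ek
    linear_combination ek
  apply hk0
  have c := fun n => congrArg (fun p : ℝ[X] => p.coeff n) hK
  have c6 := c 6
  have c0 := c 0
  have c2 := c 2
  have c3 := c 3
  have c4 := c 4
  have c1 := c 1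
  simp only [K, coeff_add, coeff_sub, coeff_C_mul, coeff_X_pow, coeff_C, coeff_X,
    coeff_zero] at c0 c1 c2 c3 c4 c6
  norm_num at c0 c1 c2 c3 c4 c6
  funext i
  fin_cases i <;> simp [*]

end Pool.Agent.P.MP_67bdec_gt
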