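import Mathlib

/-!
Definitions for the problem on surfaces carrying a segment and a vertical-axis parabolic arc
through each point.
-/

namespace Pool.Agent.P.MP_67bdec_gt

open Set

/-- The parameter plane. -/
abbrev R2 : Type := ℝ × ℝ

/-- Three-space, with coordinates `(x, y, z)`; the `z`-axis is vertical. -/
abbrev R3 : Type := ℝ × ℝ × ℝ

/-- Real polynomials in `(u, v)` of degree at most `m` in `u` and at most `n` in `v`,
given by their coefficients. -/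
abbrev Pol (m n : ℕ) : Type := Fin (m + 1) → Fin (n + 1) → ℝ

/-- The value of a polynomial at `(u, v)`. -/
def Pol.ev {m n : ℕ} (p : Pol m n) (u v : ℝ) : ℝ :=
  ∑ i, ∑ j, p i j * u ^ (i : ℕ) * v ^ (j : ℕ)

/-- A parametrised surface `F` on `D`, with, for each parameter `t`, the end points `A t`, `B t`
of a segment and the coefficients and parameter interval of a parabolic arc. -/
structure Data where
  D : Set R2
  F : R2 → R3
  A : R2 → R3
  B : R2 → R3
  x0 : R2 → ℝ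
  y0 : R2 → ℝ
  a : R2 → ℝ
  b : R2 → ℝ
  c : R2 → ℝ
  d : R2 → ℝ
  e : R2 → ℝ
  lo : R2 → ℝ
  hi : R2 → ℝ

/-- The surface `S`. -/
def Data.S (X : Data) : Set R3 := X.F '' X.D

/-- The segment attached to the parameter `t`. -/
def Data.seg (X : Data) (t : R2) : Set R3 := segment ℝ (X.A t) (X.B t)

/-- The parabola attached to the parameter `t`. -/
def Data.par (X : Data) (t : R2) (τ : ℝ) : R3 :=
  (X.x0 t + X.a t * τ, X.y0 t + X.b t * τ, X.c t * τ ^ 2 + X.d t * τ + X.e t)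

/-- The parabolic arc attached to the parameter `t`. -/
def Data.arc (X : Data) (t : R2) : Set R3 := X.par t '' Ioo (X.lo t) (X.hi t)

/-- The hypothesis of the problem: an analytic surface with a segment and a vertical-axis
parabolic arc through each point, contained in it, transversal, depending analytically on the
point. -/
structure Data.IsLP (X : Data) : Prop where
  isOpen : IsOpen X.D
  conn : IsConnected X.D
  anF : AnalyticOnNhd ℝ X.F X.D
  imm : ∀ t ∈ X.D, Function.Injective (fderiv ℝ X.F t)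
  anA : AnalyticOnNhd ℝ X.A X.D
  anB : AnalyticOnNhd ℝ X.B X.D
  anx0 : AnalyticOnNhd ℝ X.x0 X.D
  any0 : AnalyticOnNhd ℝ X.y0 X.D
  ana : AnalyticOnNhd ℝ X.a X.D
  anb : AnalyticOnNhd ℝ X.b X.D
  anc : AnalyticOnNhd ℝ X.c X.D
  and : AnalyticOnNhd ℝ X.d X.D
  ane : AnalyticOnNhd ℝ X.e X.D
  anlo : AnalyticOnNhd ℝ X.lo X.D
  anhi : AnalyticOnNhd ℝ X.hi X.D
  seg_ne : ∀ t ∈ X.D, X.A t ≠ X.B t
  dir_ne : ∀ t ∈ X.D, (X.a t, X.b t) ≠ (0, 0)
  c_ne : ∀ t ∈ X.D, X.c t ≠ 0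
  lo_lt : ∀ t ∈ X.D, X.lo t < X.hi t
  mem_seg : ∀ t ∈ X.D, X.F t ∈ X.seg t
  mem_arc : ∀ t ∈ X.D, X.F t ∈ X.arc t
  seg_sub : ∀ t ∈ X.D, X.seg t ⊆ X.S
  arc_sub : ∀ t ∈ X.D, X.arc t ⊆ X.S
  transv : ∀ t ∈ X.D, ∀ τ, X.par t τ = X.F t → ∀ k : ℝ,
    X.B t - X.A t ≠ k • (X.a t, X.b t, 2 * X.c t * τ + X.d t)

/-- The data `P, Q, Z, U, V` of a rational map of the conjectured form. -/
structure RatMap where
  P : Pol 1 1
  Q : Pol 1 1
  Z : Pol 2 1
  U : Pol 1 0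
  V : Pol 0 1
  U_ne : U ≠ 0
  V_ne : V ≠ 0

/-- Where the rational map is defined. -/
def RatMap.dom (Φ : RatMap) (u v : ℝ) : Prop := Φ.U.ev u v * Φ.V.ev u v ≠ 0

/-- The rational map `(P/(UV), Q/(UV), Z/(U^2 V))`. -/
noncomputable def RatMap.pt (Φ : RatMap) (u v : ℝ) : R3 :=
  (Φ.P.ev u v / (Φ.U.ev u v * Φ.V.ev u v), Φ.Q.ev u v / (Φ.U.ev u v * Φ.V.ev u v),
    Φ.Z.ev u v / (Φ.U.ev u v ^ 2 * Φ.V.ev u v))

/-- The parametric curve along which `u` is constant. -/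
def RatMap.uCurve (Φ : RatMap) (u : ℝ) : Set R3 := {p | ∃ v, Φ.dom u v ∧ p = Φ.pt u v}

/-- The parametric curve along which `v` is constant. -/
def RatMap.vCurve (Φ : RatMap) (v : ℝ) : Set R3 := {p | ∃ u, Φ.dom u v ∧ p = Φ.pt u v}

/-- The conclusion asked for in Q1, in its weakest reading: after discarding a set `E` of
Hausdorff dimension at most one, every point is `Φ(u, v)`, and what is left of its segment and of
its arc lies on the curves `u = const` and `v = const` through it. -/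
def Data.Param (X : Data) : Prop :=
  ∃ (Φ : RatMap) (E : Set R3), dimH E ≤ 1 ∧ ∀ t ∈ X.D, X.F t ∉ E →
    ∃ u v, Φ.dom u v ∧ X.F t = Φ.pt u v ∧
      X.seg t \ E ⊆ Φ.uCurve u ∧ X.arc t \ E ⊆ Φ.vCurve v

/-- A straight line. -/
def IsLine (s : Set R3) : Prop := ∃ p w : R3, w ≠ 0 ∧ s = range fun τ : ℝ => p + τ • w

/-- A parabola with vertical axis. -/
def IsVertParabola (s : Set R3) : Prop :=
  ∃ x0 y0 a b c d e : ℝ, (a, b) ≠ (0, 0) ∧ c ≠ 0 ∧
    s = range fun τ : ℝ => ((x0 + a * τ, y0 + b * τ, c * τ ^ 2 + d * τ + e) : R3)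

/-- `S` lies in a vertical plane, or in the graph of a polynomial of degree at most two. -/
def Data.Exceptional (X : Data) : Prop :=
  (∃ α β γ : ℝ, (α, β) ≠ (0, 0) ∧ ∀ p ∈ X.S, α * p.1 + β * p.2.1 = γ) ∨
  (∃ q0 q1 q2 q11 q12 q22 : ℝ, ∀ p ∈ X.S, p.2.2 = q0 + q1 * p.1 + q2 * p.2.1 +
    q11 * p.1 ^ 2 + q12 * p.1 * p.2.1 + q22 * p.2.1 ^ 2)

end Pool.Agent.P.MP_67bdec_gt
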