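import Pool.Agent.P.MP_67bdec_gt.Vert

/-!
The classification theorem.
-/

namespace Pool.Agent.P.MP_67bdec_gt

open Set Filter Topology

/-- The polynomial map in an adapted affine frame. -/
def mkMap (O e1 e2 : R3) (c0 a1 b1 g s1 : ℝ) : RatMap where
  P := ![![O.1, e2.1], ![e1.1, a1 * e1.1 + b1 * e2.1]]
  Q := ![![O.2.1, e2.2.1], ![e1.2.1, a1 * e1.2.1 + b1 * e2.2.1]]
  Z := ![![O.2.2, e2.2.2], ![e1.2.2, a1 * e1.2.2 + b1 * e2.2.2 + s1 * c0], ![c0, g * c0]]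
  U := ![![1], ![0]]
  V := ![![1, 0]]
  U_ne := fun h => by simpa using congrFun (congrFun h 0) 0
  V_ne := fun h => by simpa using congrFun (congrFun h 0) 0

section mk

variable (O e1 e2 : R3) (c0 a1 b1 g s1 : ℝ)

theorem mkMap_dom (u v : ℝ) : (mkMap O e1 e2 c0 a1 b1 g s1).dom u v := by
  simp [RatMap.dom, mkMap, Pol.ev, Fin.sum_univ_succ]

theorem mkMap_pt (u v : ℝ) : (mkMap O e1 e2 c0 a1 b1 g s1).pt u v =
    O + ((u * (1 + a1 * v)) • e1 + (v * (1 + b1 * u)) • e2 +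
      (u ^ 2 + v * (g * u ^ 2 + s1 * u)) • ((0, 0, c0) : R3)) := by
  refine Prod.ext ?_ (Prod.ext ?_ ?_) <;>
    simp [RatMap.pt, mkMap, Pol.ev, Fin.sum_univ_succ] <;> ring

theorem mkMap_uCurve (u : ℝ) : (mkMap O e1 e2 c0 a1 b1 g s1).uCurve u =
    range fun v => (mkMap O e1 e2 c0 a1 b1 g s1).pt u v := by
  ext p
  simp [RatMap.uCurve, mkMap_dom, eq_comm]

theorem mkMap_vCurve (v : ℝ) : (mkMap O e1 e2 c0 a1 b1 g s1).vCurve v =
    range fun u => (mkMap O e1 e2 c0 a1 b1 g s1).pt u v := by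
  ext p
  simp [RatMap.vCurve, mkMap_dom, eq_comm]

theorem mkMap_isLine (u : ℝ) (h : (a1 * u) • e1 + (1 + b1 * u) • e2 +
    (g * u ^ 2 + s1 * u) • ((0, 0, c0) : R3) ≠ 0) :
    IsLine ((mkMap O e1 e2 c0 a1 b1 g s1).uCurve u) := by
  refine ⟨(mkMap O e1 e2 c0 a1 b1 g s1).pt u 0, _, h, ?_⟩
  rw [mkMap_uCurve]
  congr 1
  funext v
  simp only [mkMap_pt]
  module

theorem mkMap_isPar (v : ℝ) (h : ((1 + a1 * v) * e1.1 + b1 * v * e2.1,
    (1 + a1 * v) * e1.2.1 + b1 * v * e2.2.1) ≠ (0, 0)) (hc : (1 + g * v) * c0 ≠ 0) :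
    IsVertParabola ((mkMap O e1 e2 c0 a1 b1 g s1).vCurve v) := by
  refine ⟨O.1 + v * e2.1, O.2.1 + v * e2.2.1, _, _, _,
    (1 + a1 * v) * e1.2.2 + b1 * v * e2.2.2 + s1 * v * c0, O.2.2 + v * e2.2.2, h, hc, ?_⟩
  rw [mkMap_vCurve]
  congr 1
  funext u
  simp only [mkMap_pt]
  refine Prod.ext ?_ (Prod.ext ?_ ?_) <;> simp <;> ring

end mk

/-- First coordinate in the frame. -/
noncomputable def nX (e1 e2 : R3) : R3 →L[ℝ] ℝ :=
  (e1.1 * e2.2.1 - e1.2.1 * e2.1)⁻¹ •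
    (e2.2.1 • (ContinuousLinearMap.fst ℝ ℝ ℝ).comp topv -
      e2.1 • (ContinuousLinearMap.snd ℝ ℝ ℝ).comp topv)

/-- Second coordinate in the frame. -/
noncomputable def nY (e1 e2 : R3) : R3 →L[ℝ] ℝ :=
  (e1.1 * e2.2.1 - e1.2.1 * e2.1)⁻¹ •
    (e1.1 • (ContinuousLinearMap.snd ℝ ℝ ℝ).comp topv -
      e1.2.1 • (ContinuousLinearMap.fst ℝ ℝ ℝ).comp topv)

/-- Third coordinate in the frame. -/
noncomputable def nZ (e1 e2 : R3) (c0 : ℝ) : R3 →L[ℝ] ℝ :=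
  c0⁻¹ • ((ContinuousLinearMap.snd ℝ ℝ ℝ).comp (ContinuousLinearMap.snd ℝ ℝ (ℝ × ℝ)) -
    e1.2.2 • nX e1 e2 - e2.2.2 • nY e1 e2)

theorem nX_apply (e1 e2 w : R3) : nX e1 e2 w =
    (e1.1 * e2.2.1 - e1.2.1 * e2.1)⁻¹ * (e2.2.1 * w.1 - e2.1 * w.2.1) := rfl

theorem nY_apply (e1 e2 w : R3) : nY e1 e2 w =
    (e1.1 * e2.2.1 - e1.2.1 * e2.1)⁻¹ * (e1.1 * w.2.1 - e1.2.1 * w.1) := rfl

theorem nZ_apply (e1 e2 w : R3) (c0 : ℝ) : nZ e1 e2 c0 w =
    c0⁻¹ * (w.2.2 - e1.2.2 * nX e1 e2 w - e2.2.2 * nY e1 e2 w) := rfl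

theorem frame_decomp {e1 e2 : R3} {c0 : ℝ} (hδ : e1.1 * e2.2.1 - e1.2.1 * e2.1 ≠ 0) (hc : c0 ≠ 0)
    (w : R3) : w = nX e1 e2 w • e1 + nY e1 e2 w • e2 + nZ e1 e2 c0 w • ((0, 0, c0) : R3) := by
  have hi := mul_inv_cancel₀ hδ
  refine Prod.ext ?_ (Prod.ext ?_ ?_)
  · simp only [Prod.fst_add, Prod.smul_fst, smul_eq_mul, nX_apply, nY_apply]
    linear_combination -w.1 * hi
  · simp only [Prod.fst_add, Prod.snd_add, Prod.smul_fst, Prod.smul_snd, smul_eq_mul, nX_apply,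
      nY_apply]
    linear_combination -w.2.1 * hi
  · simp only [Prod.snd_add, Prod.smul_snd, smul_eq_mul, nZ_apply]
    field_simp
    ring

theorem top_eq_of_frame {e1 e2 : R3} (hδ : e1.1 * e2.2.1 - e1.2.1 * e2.1 ≠ 0) {w w' : R3}
    (h1 : nX e1 e2 w = nX e1 e2 w') (h2 : nY e1 e2 w = nY e1 e2 w') : topv w = topv w' := by
  have a1 := frame_decomp hδ one_ne_zero w
  have a2 := frame_decomp hδ one_ne_zero w'
  rw [a1, a2, h1, h2]
  simp

variable {X : Data}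

theorem exists_far_end (hX : X.IsLP) {t0 : R2} (ht0 : t0 ∈ X.D) :
    ∃ L : R2 → R3, AnalyticOnNhd ℝ L X.D ∧ L t0 ≠ 0 ∧
      (∀ t ∈ X.D, ∀ s ∈ Icc (0 : ℝ) 1, X.F t + s • L t ∈ X.S) ∧
      ∀ t ∈ X.D, L t ≠ 0 → ∀ p ∈ X.seg t, ∃ s : ℝ, p = X.F t + s • L t := by
  have key : ∀ A B F : R3, F ∈ segment ℝ A B → B - F ≠ 0 → ∀ p ∈ segment ℝ A B,
      ∃ s : ℝ, p = F + s • (B - F) := by
    intro A B F hF hne p hp
    rw [segment_eq_image'] at hF hp
    obtain ⟨σ, -, rfl⟩ := hF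
    obtain ⟨θ, -, rfl⟩ := hp
    have h1 : 1 - σ ≠ 0 := by
      intro h
      apply hne
      rw [← sub_eq_zero.1 h]; simp
    refine ⟨(θ - σ) / (1 - σ), ?_⟩
    have e : B - (A + σ • (B - A)) = (1 - σ) • (B - A) := by module
    simp only
    rw [e, smul_smul, div_mul_cancel₀ _ h1]
    module
  by_cases h : X.B t0 = X.F t0
  · refine ⟨fun t => X.A t - X.F t, hX.anA.sub hX.anF,
      sub_ne_zero.2 (h ▸ hX.seg_ne t0 ht0), fun t ht s hs => hX.seg_sub t ht ?_,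
      fun t ht hne p hp => ?_⟩
    · exact (convex_segment _ _).add_smul_sub_mem (hX.mem_seg t ht) (left_mem_segment _ _ _) hs
    · have hs : X.seg t = segment ℝ (X.B t) (X.A t) := segment_symm _ _ _
      exact key (X.B t) (X.A t) _ (hs ▸ hX.mem_seg t ht) hne p (hs ▸ hp)
  · refine ⟨fun t => X.B t - X.F t, hX.anB.sub hX.anF, sub_ne_zero.2 h,
      fun t ht s hs => hX.seg_sub t ht ?_, fun t ht hne p hp => ?_⟩
    · exact (convex_segment _ _).add_smul_sub_mem (hX.mem_seg t ht) (right_mem_segment _ _ _) hs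
    · exact key _ _ _ (hX.mem_seg t ht) hne p hp

theorem same_sheet (hX : X.IsLP) {t0 : R2} (ht0 : t0 ∈ X.D)
    (hinj : Function.Injective (fderiv ℝ (fun t => topv (X.F t)) t0))
    {L : R2 → R3} (hL : AnalyticOnNhd ℝ L X.D)
    (hLS : ∀ t ∈ X.D, ∀ s ∈ Icc (0 : ℝ) 1, X.F t + s • L t ∈ X.S) :
    ∀ᶠ pp : (R2 × ℝ) × (R2 × ℝ) in 𝓝 ((t0, 0), (t0, 0)),
      topv (X.F pp.1.1 + pp.1.2 • L pp.1.1) =
        topv (X.F pp.2.1 + pp.2.2 • X.eta pp.2.1 + pp.2.2 ^ 2 • ((0, 0, X.c pp.2.1) : R3)) →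
      X.F pp.1.1 + pp.1.2 • L pp.1.1 =
        X.F pp.2.1 + pp.2.2 • X.eta pp.2.1 + pp.2.2 ^ 2 • ((0, 0, X.c pp.2.1) : R3) := by
  obtain ⟨Ω, -, -, hleft, -⟩ :=
    an_local_inverse ((topv.analyticAt _).comp (hX.anF t0 ht0)) hinj
  have a1 : ∀ {Y : Type} [NormedAddCommGroup Y] [NormedSpace ℝ Y] {f : R2 → Y},
      AnalyticOnNhd ℝ f X.D → AnalyticAt ℝ (fun p : R2 × ℝ => f p.1) (t0, 0) :=
    fun hf => AnalyticAt.comp (g := _) (f := fun p : R2 × ℝ => p.1) (hf t0 ht0) analyticAt_fst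
  have hS := not_mem_nhds_of_surface hX.anF
  have s1 := sheet (F := X.F) (G := fun p => X.F p.1 + p.2 • L p.1) hS
    ((a1 hX.anF).add (analyticAt_snd.smul (a1 hL))) (by simp) hinj (by
      have h3 : ∀ᶠ p : R2 × ℝ in 𝓝 (t0, 0), p.1 ∈ X.D :=
        continuous_fst.continuousAt.eventually (hX.isOpen.mem_nhds ht0)
      have h4 : ∀ᶠ p : R2 × ℝ in 𝓝 (t0, 0), p.2 < 1 :=
        continuousAt_snd.eventually_lt continuousAt_const (by norm_num)
      filter_upwards [h3, h4] with p h3 h4 h5 using hLS _ h3 _ ⟨h5.le, h4.le⟩) hleft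
  have s2 := sheet (F := X.F)
    (G := fun p => X.F p.1 + p.2 • X.eta p.1 + p.2 ^ 2 • ((0, 0, X.c p.1) : R3)) hS
    (((a1 hX.anF).add (analyticAt_snd.smul (a1 (an_eta hX)))).add ((analyticAt_snd.pow 2).smul
      (analyticAt_const.prod (analyticAt_const.prod (a1 hX.anc))))) (by simp) hinj
    ((par_eventually hX ht0 (by simpa using (tau_spec hX ht0).2)).mono fun p hp _ => hp) hleft
  rw [nhds_prod_eq]
  filter_upwards [prod_mem_prod s1 s2] with pp hpp htop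
  obtain ⟨⟨t1, h1, e1⟩, t2, h2, e2⟩ := hpp
  rw [e1, e2] at htop ⊢
  have : t1 = t2 := by
    simp only [Function.comp_apply] at h1 h2
    rw [← h1, ← h2, htop]
  rw [this]

theorem top_indep {O e1 e2 : R3} {c0 : ℝ} (h1 : (e1.1, e1.2.1) ≠ (0, 0)) (h2 : e2 ≠ 0)
    (hc : c0 ≠ 0) (h : ∀ᶠ ss : ℝ × ℝ in 𝓝 (0, 0),
      topv (O + ss.1 • e2) = topv (O + ss.2 • e1 + ss.2 ^ 2 • ((0, 0, c0) : R3)) →
        O + ss.1 • e2 = O + ss.2 • e1 + ss.2 ^ 2 • ((0, 0, c0) : R3)) :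
    e1.1 * e2.2.1 - e1.2.1 * e2.1 ≠ 0 := by
  intro hδ
  have hn := sq_add_sq_ne h1
  set μ := (e1.1 * e2.1 + e1.2.1 * e2.2.1) / (e1.1 ^ 2 + e1.2.1 ^ 2) with hμ
  have k1 : e2.1 = μ * e1.1 := by
    rw [hμ]; field_simp; linear_combination -e1.2.1 * hδ
  have k2 : e2.2.1 = μ * e1.2.1 := by
    rw [hμ]; field_simp; linear_combination e1.1 * hδ
  have ht : Tendsto (fun s : ℝ => (s, μ * s)) (𝓝 0) (𝓝 (0, 0)) := by
    have : Continuous (fun s : ℝ => (s, μ * s)) := by fun_prop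
    simpa using this.tendsto 0
  have := two_jet_zero (E1 := e2.2.2 - μ * e1.2.2) (R := fun _ => -(μ ^ 2 * c0)) continuousAt_const
    (by
      filter_upwards [ht.eventually h] with s hs
      have h3 := congrArg (fun p : R3 => p.2.2) (hs (by
        simp only [topv_apply, Prod.fst_add, Prod.snd_add, Prod.smul_fst, Prod.smul_snd,
          smul_eq_mul, k1, k2, Prod.mk.injEq]
        constructor <;> ring))
      simp only [Prod.snd_add, Prod.smul_snd, smul_eq_mul] at h3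
      linear_combination h3)
  obtain ⟨k3, k4⟩ := this
  have hμ0 : μ = 0 := by
    simpa [hc] using k4
  rw [hμ0] at k1 k2 k3
  apply h2
  refine Prod.ext (by simpa using k1) (Prod.ext (by simpa using k2) (by simpa using k3))

/-- The conclusion of the classification at one point. -/
def GoodAt (X : Data) (Φ : RatMap) (t : R2) : Prop :=
  ∃ u v, Φ.dom u v ∧ X.F t = Φ.pt u v ∧ IsLine (Φ.uCurve u) ∧ IsVertParabola (Φ.vCurve v) ∧
    (¬ X.Exceptional → X.seg t ⊆ Φ.uCurve u ∧ X.arc t ⊆ Φ.vCurve v)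

theorem nonvertical (hX : X.IsLP) {t0 : R2} (ht0 : t0 ∈ X.D)
    (hinj : Function.Injective (fderiv ℝ (fun t => topv (X.F t)) t0)) :
    ∃ (Φ : RatMap) (h : R2 → ℝ), AnalyticOnNhd ℝ h X.D ∧ h t0 ≠ 0 ∧
      ∀ t ∈ X.D, h t ≠ 0 → GoodAt X Φ t := by
  obtain ⟨L, hL, hL0, hLS, hLseg⟩ := exists_far_end hX ht0
  have SI := same_sheet hX ht0 hinj hL hLS
  set O := X.F t0 with hO
  set e1 := X.eta t0 with he1
  set e2 := L t0 with he2
  set c0 := X.c t0 with hc0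
  have hc : c0 ≠ 0 := hX.c_ne t0 ht0
  have hδ : e1.1 * e2.2.1 - e1.2.1 * e2.1 ≠ 0 := by
    refine top_indep (O := O) (hX.dir_ne t0 ht0) hL0 hc ?_
    have ht : Tendsto (fun ss : ℝ × ℝ => ((t0, ss.1), (t0, ss.2))) (𝓝 (0, 0))
        (𝓝 ((t0, 0), (t0, 0))) :=
      (by fun_prop : Continuous (fun ss : ℝ × ℝ => ((t0, ss.1), (t0, ss.2)))).tendsto (0, 0)
    exact ht.eventually SI
  have hi := mul_inv_cancel₀ hδ
  have hci := inv_mul_cancel₀ hc
  have hFO : AnalyticOnNhd ℝ (fun t => X.F t - O) X.D := hX.anF.sub analyticOnNhd_const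
  have an : ∀ (ℓ : R3 →L[ℝ] ℝ) {f : R2 → R3}, AnalyticOnNhd ℝ f X.D →
      AnalyticOnNhd ℝ (fun t => ℓ (f t)) X.D :=
    fun ℓ f hf t ht => (ℓ.analyticAt _).comp (hf t ht)
  have X1 : nX e1 e2 e1 = 1 := by rw [nX_apply]; linear_combination hi
  have X2 : nX e1 e2 e2 = 0 := by rw [nX_apply]; ring
  have Y1 : nY e1 e2 e1 = 0 := by rw [nY_apply]; ring
  have Y2 : nY e1 e2 e2 = 1 := by rw [nY_apply]; linear_combination hi
  have Z1 : nZ e1 e2 c0 e1 = 0 := by rw [nZ_apply, X1, Y1]; ring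
  have Z2 : nZ e1 e2 c0 e2 = 0 := by rw [nZ_apply, X2, Y2]; ring
  have X3 : ∀ c : ℝ, nX e1 e2 (0, 0, c) = 0 := fun c => by rw [nX_apply]; ring
  have Y3 : ∀ c : ℝ, nY e1 e2 (0, 0, c) = 0 := fun c => by rw [nY_apply]; ring
  have Z3 : ∀ c : ℝ, nZ e1 e2 c0 (0, 0, c) = c0⁻¹ * c := fun c => by
    rw [nZ_apply, X3, Y3]; ring
  have hdF := (hX.anF t0 ht0).differentiableAt.hasFDerivAt
  have hsurj : ∀ w : R3, ∃ k, topv (fderiv ℝ X.F t0 k) = topv w := by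
    intro w
    have h1 : fderiv ℝ (fun t => topv (X.F t)) t0 = topv.comp (fderiv ℝ X.F t0) :=
      (topv.hasFDerivAt.comp t0 hdF).fderiv
    rw [h1] at hinj
    exact (LinearMap.injective_iff_surjective
      (f := (topv.comp (fderiv ℝ X.F t0)).toLinearMap)).1 hinj (topv w)
  have hder : ∀ ℓ : R3 →L[ℝ] ℝ, fderiv ℝ (fun t => ℓ (X.F t - O)) t0 =
      ℓ.comp (fderiv ℝ X.F t0) :=
    fun ℓ => (ℓ.hasFDerivAt.comp t0 (hdF.sub_const O)).fderiv
  obtain ⟨a1, b1, g, s1, h, hh, hh0, hQ, hall⟩ := global_norm hX.conn.isPreconnected ht0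
    (c := fun t => c0⁻¹ * X.c t)
    (an (nX e1 e2) hFO) (an (nY e1 e2) hFO) (an (nZ e1 e2 c0) hFO)
    (an (nX e1 e2) hL) (an (nY e1 e2) hL) (an (nZ e1 e2 c0) hL)
    (an (nX e1 e2) (an_eta hX)) (an (nY e1 e2) (an_eta hX)) (an (nZ e1 e2 c0) (an_eta hX))
    (analyticOnNhd_const.mul hX.anc) (by simp [← hO]) (by simp [← hO]) (by simp [← hO])
    X2 Y2 Z2 X1 Y1 Z1 hci
    (by
      rw [hder]
      intro h0
      obtain ⟨k, hk⟩ := hsurj e1
      have h1 : nX e1 e2 (fderiv ℝ X.F t0 k) = 0 := congrArg (fun L : R2 →L[ℝ] ℝ => L k) h0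
      simp only [topv_apply, Prod.mk.injEq] at hk
      rw [nX_apply, hk.1, hk.2, ← nX_apply, X1] at h1
      exact one_ne_zero h1)
    (by
      rw [hder]
      intro h0
      obtain ⟨k, hk⟩ := hsurj e2
      have h1 : nY e1 e2 (fderiv ℝ X.F t0 k) = 0 := congrArg (fun L : R2 →L[ℝ] ℝ => L k) h0
      simp only [topv_apply, Prod.mk.injEq] at hk
      rw [nY_apply, hk.1, hk.2, ← nY_apply, Y2] at h1
      exact one_ne_zero h1)
    (by
      filter_upwards [SI] with pp hpp k1 k2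
      have k3 := congrArg (nZ e1 e2 c0) (hpp (top_eq_of_frame hδ (by
        simp only [map_add, map_smul, map_sub, smul_eq_mul, X3] at k1 ⊢
        linear_combination k1) (by
        simp only [map_add, map_smul, map_sub, smul_eq_mul, Y3] at k2 ⊢
        linear_combination k2)))
      simp only [map_add, map_smul, map_sub, smul_eq_mul, Z3] at k3 ⊢
      linear_combination k3)
  refine ⟨mkMap O e1 e2 c0 a1 b1 g s1, h, hh, hh0, fun t ht hne => ?_⟩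
  obtain ⟨u, v, mU, mV, mG, kx, ky, kz, ml, kl1, kl3, kh⟩ := hall t ht hne
  have dF := frame_decomp hδ hc (X.F t - O)
  rw [kx, ky, kz, sub_eq_iff_eq_add'] at dF
  have hnz : ∀ α β : ℝ, α ≠ 0 ∨ β ≠ 0 →
      (α * e1.1 + β * e2.1, α * e1.2.1 + β * e2.2.1) ≠ (0, 0) := by
    intro α β hαβ h0
    simp only [Prod.mk.injEq] at h0
    rcases hαβ with h1 | h1
    · exact mul_ne_zero h1 hδ (by linear_combination e2.2.1 * h0.1 - e2.1 * h0.2)
    · exact mul_ne_zero h1 hδ (by linear_combination -e1.2.1 * h0.1 + e1.1 * h0.2)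
  refine ⟨u, v, mkMap_dom _ _ _ _ _ _ _ _ _ _, by rw [mkMap_pt]; exact dF, mkMap_isLine _ _ _ _ _ _ _ _ _ ?_,
    mkMap_isPar _ _ _ _ _ _ _ _ _ (hnz _ _ (Or.inl mV)) (mul_ne_zero mG hc), fun hE => ⟨?_, ?_⟩⟩
  · intro h0
    apply hnz (a1 * u) (1 + b1 * u) (Or.inr mU)
    have := congrArg topv h0
    simpa using this
  · intro p hp
    have hLt : L t ≠ 0 := fun h0 => ml (by simp [h0])
    obtain ⟨s, rfl⟩ := hLseg t ht hLt p hp
    rw [mkMap_uCurve]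
    refine ⟨v + s * nY e1 e2 (L t) / (1 + b1 * u), ?_⟩
    have dL := frame_decomp hδ hc (L t)
    set l1 := nX e1 e2 (L t)
    set l2 := nY e1 e2 (L t)
    set l3 := nZ e1 e2 c0 (L t)
    have f1 : l1 = a1 * u * l2 / (1 + b1 * u) := by rw [← kl1]; field_simp
    have f3 : l3 = (g * u ^ 2 + s1 * u) * l2 / (1 + b1 * u) := by rw [← kl3]; field_simp
    simp only [mkMap_pt]
    rw [dF, dL, f1, f3]
    match_scalars
    · ring
    · ring
    · field_simp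
    · ring
  · rcases kh with kh | ⟨kh2, kh3, kc⟩
    · exfalso
      apply hE
      right
      set δ := (e1.1 * e2.2.1 - e1.2.1 * e2.1)⁻¹
      set A0 := δ * (e2.1 * O.2.1 - e2.2.1 * O.1)
      set A1 := δ * e2.2.1
      set A2 := -(δ * e2.1)
      set B0 := δ * (e1.2.1 * O.1 - e1.1 * O.2.1)
      set B1 := -(δ * e1.2.1)
      set B2 := δ * e1.1
      refine ⟨O.2.2 + e1.2.2 * A0 + e2.2.2 * B0 + c0 * (A0 ^ 2 + s1 * A0 * B0),
        e1.2.2 * A1 + e2.2.2 * B1 + c0 * (2 * A0 * A1 + s1 * (A0 * B1 + A1 * B0)),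
        e1.2.2 * A2 + e2.2.2 * B2 + c0 * (2 * A0 * A2 + s1 * (A0 * B2 + A2 * B0)),
        c0 * (A1 ^ 2 + s1 * A1 * B1), c0 * (2 * A1 * A2 + s1 * (A1 * B2 + A2 * B1)),
        c0 * (A2 ^ 2 + s1 * A2 * B2), ?_⟩
      rintro _ ⟨t', ht', rfl⟩
      have q := hQ kh t' ht'
      have qx : nX e1 e2 (X.F t' - O) = A0 + A1 * (X.F t').1 + A2 * (X.F t').2.1 := by
        rw [nX_apply]; simp only [Prod.fst_sub, Prod.snd_sub, A0, A1, A2, δ]; ring
      have qy : nY e1 e2 (X.F t' - O) = B0 + B1 * (X.F t').1 + B2 * (X.F t').2.1 := by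
        rw [nY_apply]; simp only [Prod.fst_sub, Prod.snd_sub, B0, B1, B2, δ]; ring
      rw [nZ_apply, qx, qy] at q
      simp only [Prod.snd_sub] at q
      field_simp at q
      linear_combination q
    · rintro _ ⟨τ, -, rfl⟩
      have e : τ = X.tau t + (τ - X.tau t) := by ring
      rw [e, par_shift hX ht, mkMap_vCurve]
      set σ := τ - X.tau t
      refine ⟨u + σ * nX e1 e2 (X.eta t) / (1 + a1 * v), ?_⟩
      have dη := frame_decomp hδ hc (X.eta t)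
      set h1 := nX e1 e2 (X.eta t)
      set h2 := nY e1 e2 (X.eta t)
      set h3 := nZ e1 e2 c0 (X.eta t)
      have f2 : h2 = h1 * (b1 * v) / (1 + a1 * v) := by rw [← kh2]; field_simp
      have f3 : h3 = h1 * (2 * u * (1 + g * v) + s1 * v) / (1 + a1 * v) := by
        rw [← kh3]; field_simp
      have f4 : ((0, 0, X.c t) : R3) =
          (h1 ^ 2 * (1 + g * v) / (1 + a1 * v) ^ 2) • ((0, 0, c0) : R3) := by
        rw [← kc]
        simp only [Prod.smul_mk, smul_eq_mul, mul_zero, Prod.mk.injEq, true_and]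
        field_simp
      simp only [mkMap_pt]
      rw [dF, dη, f2, f3, f4]
      match_scalars <;> field_simp <;> ring

theorem classification (hX : X.IsLP) : ∃ (Φ : RatMap) (E : Set R3), dimH E ≤ 1 ∧
    ∀ t ∈ X.D, X.F t ∉ E → GoodAt X Φ t := by
  by_cases h : ∃ t0 ∈ X.D, Function.Injective (fderiv ℝ (fun t => topv (X.F t)) t0)
  · obtain ⟨t0, ht0, hinj⟩ := h
    obtain ⟨Φ, h, hh, hh0, hall⟩ := nonvertical hX ht0 hinj
    refine ⟨Φ, X.F '' {t ∈ X.D | h t = 0}, (dimH_image_an hX.anF (sep_subset _ _)).trans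
      (dimH_zero_set hX.conn.isPreconnected hh ht0 hh0), fun t ht hE => hall t ht fun h0 => ?_⟩
    exact hE ⟨t, ⟨ht, h0⟩, rfl⟩
  · push Not at h
    obtain ⟨α, β, γ, hαβ, hpl⟩ := vertical hX h
    have hn := sq_add_sq_ne hαβ
    refine ⟨mkMap (α * γ / (α ^ 2 + β ^ 2), β * γ / (α ^ 2 + β ^ 2), 0) (-β, α, 0) (0, 0, 1)
      1 0 0 0 0, ∅, by simp, fun t ht _ => ?_⟩
    have hp := hpl _ ⟨t, ht, rfl⟩
    set u := (-β * (X.F t).1 + α * (X.F t).2.1) / (α ^ 2 + β ^ 2) with hu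
    refine ⟨u, (X.F t).2.2 - u ^ 2, mkMap_dom _ _ _ _ _ _ _ _ _ _, ?_, mkMap_isLine _ _ _ _ _ _ _ _ _ (by simp),
      mkMap_isPar _ _ _ _ _ _ _ _ _ ?_ (by simp),
      fun hE => absurd (Or.inl ⟨α, β, γ, hαβ, hpl⟩) hE⟩
    · rw [mkMap_pt]
      refine Prod.ext ?_ (Prod.ext ?_ ?_)
      · simp only [Prod.fst_add, Prod.smul_fst, smul_eq_mul, hu, zero_mul, mul_zero, add_zero,
          mul_one]
        field_simp
        linear_combination α * hp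
      · simp only [Prod.fst_add, Prod.snd_add, Prod.smul_fst, Prod.smul_snd, smul_eq_mul, hu,
          zero_mul, mul_zero, add_zero, mul_one]
        field_simp
        linear_combination β * hp
      · simp
    · intro h0
      simp only [zero_mul, add_zero, one_mul, mul_zero, Prod.mk.injEq, neg_eq_zero] at h0
      exact hαβ (by rw [h0.1, h0.2])

end Pool.Agent.P.MP_67bdec_gt
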