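import Pool.Agent.P.MP_67bdec_gt.Defs
import Pool.Agent.P.MP_67bdec_gt.Core

/-!
The local classification in normalised coordinates.
-/

namespace Pool.Agent.P.MP_67bdec_gt

open Set Filter Topology Polynomial

theorem zero_of_punctured {R : ℝ → ℝ} (hR : ContinuousAt R 0)
    (h : ∀ᶠ τ in 𝓝 (0 : ℝ), τ * R τ = 0) : R 0 = 0 := by
  have h1 : ∀ᶠ τ in 𝓝[≠] (0 : ℝ), R τ = 0 := by
    filter_upwards [mem_nhdsWithin_of_mem_nhds h, self_mem_nhdsWithin] with τ h1 h2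
    exact (mul_eq_zero.1 h1).resolve_left h2
  exact tendsto_nhds_unique (hR.tendsto.mono_left nhdsWithin_le_nhds)
    (tendsto_const_nhds.congr' (h1.mono fun τ h => h.symm))

theorem two_jet_zero {E1 : ℝ} {R : ℝ → ℝ} (hR : ContinuousAt R 0)
    (h : ∀ᶠ τ in 𝓝 (0 : ℝ), τ * E1 + τ ^ 2 * R τ = 0) : E1 = 0 ∧ R 0 = 0 := by
  have h1 : E1 = 0 := by
    have := zero_of_punctured (R := fun τ => E1 + τ * R τ) (by fun_prop)
      (h.mono fun τ hτ => by linear_combination hτ)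
    simpa using this
  refine ⟨h1, zero_of_punctured hR ?_⟩
  filter_upwards [h] with τ hτ
  rw [h1] at hτ
  by_cases h0 : τ = 0
  · simp [h0]
  · apply mul_left_cancel₀ h0
    linear_combination hτ

theorem taylor_two {f : ℝ → ℝ} (hf : AnalyticAt ℝ f 0) :
    ∃ F : ℝ → ℝ, ContinuousAt F 0 ∧ ∀ τ, f τ = f 0 + τ * deriv f 0 + τ ^ 2 * F τ := by
  obtain ⟨F, hF, h⟩ := hf.exists_eq_sum_add_pow_mul 2
  refine ⟨F, hF.continuousAt, fun τ => ?_⟩
  rw [h τ]
  simp [Finset.sum_range_succ]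

theorem jet_eqs {u a q b1 c1 s1 : ℝ} {v b s c ν β σ γ : ℝ → ℝ} (hν : ContinuousAt ν 0)
    (hβ : ContinuousAt β 0) (hσ : ContinuousAt σ 0) (hγ : ContinuousAt γ 0)
    (hv : ∀ τ, v τ = τ + τ ^ 2 * ν τ) (hb : ∀ τ, b τ = τ * b1 + τ ^ 2 * β τ)
    (hs : ∀ τ, s τ = τ * s1 + τ ^ 2 * σ τ) (hc : ∀ τ, c τ = 1 + τ * c1 + τ ^ 2 * γ τ)
    (h : ∀ᶠ τ in 𝓝 (0 : ℝ), q * (v τ + b τ * u) * (1 - a * b τ) =
      a ^ 2 * (v τ + b τ * u) ^ 2 + s τ * (u + a * v τ) * (1 - a * b τ) -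
        (1 - c τ) * (u + a * v τ) ^ 2) :
    q * (1 + b1 * u) = c1 * u ^ 2 + s1 * u ∧
      q * (ν 0 + β 0 * u - a * b1 * (1 + b1 * u)) = a ^ 2 * (1 + b1 * u) ^ 2 + σ 0 * u +
        s1 * (a - a * b1 * u) + γ 0 * u ^ 2 + 2 * c1 * u * a := by
  have := two_jet_zero (E1 := q * (1 + b1 * u) - s1 * u - c1 * u ^ 2)
    (R := fun τ => q * (ν τ + β τ * u) - σ τ * u - γ τ * u ^ 2 +
      (-(q * ((1 + τ * ν τ) + (b1 + τ * β τ) * u) * a * (b1 + τ * β τ)) -
        a ^ 2 * ((1 + τ * ν τ) + (b1 + τ * β τ) * u) ^ 2 -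
        (s1 + τ * σ τ) * (a * (1 + τ * ν τ) - u * a * (b1 + τ * β τ) -
          τ * a ^ 2 * (1 + τ * ν τ) * (b1 + τ * β τ)) -
        (c1 + τ * γ τ) * (2 * u * a * (1 + τ * ν τ) + τ * a ^ 2 * (1 + τ * ν τ) ^ 2)))
    (by fun_prop) (h.mono fun τ hτ => by
      rw [hv, hb, hs, hc] at hτ
      linear_combination hτ)
  obtain ⟨h1, h2⟩ := this
  exact ⟨by linear_combination h1, by linear_combination h2⟩

theorem exists_unit_dir {v : R2 → ℝ} {t0 : R2} (h : fderiv ℝ v t0 ≠ 0) :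
    ∃ k, fderiv ℝ v t0 k = 1 := by
  obtain ⟨k, hk⟩ : ∃ k, fderiv ℝ v t0 k ≠ 0 := by
    by_contra hc
    push Not at hc
    exact h (ContinuousLinearMap.ext hc)
  exact ⟨(fderiv ℝ v t0 k)⁻¹ • k, by rw [map_smul, smul_eq_mul, inv_mul_cancel₀ hk]⟩

theorem exists_ne_of_fderiv_ne {v : R2 → ℝ} {t0 : R2} (h : fderiv ℝ v t0 ≠ 0) {N : Set R2}
    (hN : N ∈ 𝓝 t0) : ∃ t ∈ N, v t ≠ v t0 := by
  by_contra hc
  push Not at hc
  apply h
  have : v =ᶠ[𝓝 t0] fun _ => v t0 := by filter_upwards [hN] with t ht using hc t ht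
  rw [this.fderiv_eq]
  simp

theorem local_class {t0 : R2} {u a p q v b r s c : R2 → ℝ}
    (hu : AnalyticAt ℝ u t0) (ha : AnalyticAt ℝ a t0) (hv : AnalyticAt ℝ v t0)
    (hb : AnalyticAt ℝ b t0) (hs : AnalyticAt ℝ s t0) (hc : AnalyticAt ℝ c t0)
    (hu0 : u t0 = 0) (ha0 : a t0 = 0) (hp0 : p t0 = 0) (hq0 : q t0 = 0)
    (hv0 : v t0 = 0) (hb0 : b t0 = 0) (hr0 : r t0 = 0) (hs0 : s t0 = 0) (hc0 : c t0 = 1)
    (hdu : fderiv ℝ u t0 ≠ 0) (hdv : fderiv ℝ v t0 ≠ 0)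
    (hGE : ∀ᶠ tt : R2 × R2 in 𝓝 (t0, t0),
      (p tt.1 * (1 - a tt.1 * b tt.2) + q tt.1 * (v tt.2 + b tt.2 * u tt.1)) *
          (1 - a tt.1 * b tt.2) =
        r tt.2 * (1 - a tt.1 * b tt.2) ^ 2 +
          s tt.2 * (u tt.1 + a tt.1 * v tt.2) * (1 - a tt.1 * b tt.2) +
          c tt.2 * (u tt.1 + a tt.1 * v tt.2) ^ 2) :
    ∃ a1 b1 g s1 : ℝ, (∀ᶠ t in 𝓝 t0, p t = u t ^ 2 ∧ a t * (1 + b1 * u t) = a1 * u t ∧
        q t * (1 + b1 * u t) = g * u t ^ 2 + s1 * u t) ∧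
      ((a1 = 0 ∧ b1 = 0 ∧ g = 0) ∨
        ∀ᶠ t in 𝓝 t0, r t = 0 ∧ b t * (1 + a1 * v t) = b1 * v t ∧
          s t * (1 + a1 * v t) = s1 * v t ∧ c t * (1 + a1 * v t) ^ 2 = 1 + g * v t) := by
  obtain ⟨k, hk⟩ := exists_unit_dir hdv
  let κ : ℝ → R2 := fun τ => t0 + τ • k
  have hκ0 : κ 0 = t0 := by simp [κ]
  have hκan : AnalyticAt ℝ κ 0 := by fun_prop
  have hκd : HasDerivAt κ k 0 := by
    have := ((hasDerivAt_id (0 : ℝ)).smul_const k).const_add t0
    rw [one_smul] at this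
    exact this
  have hcomp : ∀ {f : R2 → ℝ}, AnalyticAt ℝ f t0 → AnalyticAt ℝ (fun τ => f (κ τ)) 0 :=
    fun hf => AnalyticAt.comp (g := _) (f := κ) (by rw [hκ0]; exact hf) hκan
  have hvd : deriv (fun τ => v (κ τ)) 0 = 1 := by
    have h1 : HasFDerivAt v (fderiv ℝ v t0) (κ 0) := by
      rw [hκ0]; exact hv.differentiableAt.hasFDerivAt
    rw [← hk]
    exact (h1.comp_hasDerivAt (0 : ℝ) hκd).deriv
  obtain ⟨ν, hν, hνe⟩ := taylor_two (hcomp hv)
  obtain ⟨β, hβ, hβe⟩ := taylor_two (hcomp hb)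
  obtain ⟨σ, hσ, hσe⟩ := taylor_two (hcomp hs)
  obtain ⟨γ, hγ, hγe⟩ := taylor_two (hcomp hc)
  set b1 := deriv (fun τ => b (κ τ)) 0
  set s1 := deriv (fun τ => s (κ τ)) 0
  set c1 := deriv (fun τ => c (κ τ)) 0
  simp only [hκ0, hv0, hb0, hs0, hc0, hvd, zero_add, mul_one] at hνe hβe hσe hγe
  -- the neighbourhood
  rw [nhds_prod_eq, Filter.Eventually, mem_prod_same_iff] at hGE
  obtain ⟨N0, hN0, hGE⟩ := hGE
  have hsmall : ∀ {f : R2 → ℝ}, AnalyticAt ℝ f t0 → f t0 = 0 → ∀ᶠ t in 𝓝 t0, |f t| < 1 :=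
    fun hf h0 => hf.continuousAt.abs.eventually_lt continuousAt_const (by simp [h0])
  have hUc : ∀ᶠ t in 𝓝 t0, 1 + b1 * u t ≠ 0 :=
    (continuousAt_const.add (continuousAt_const.mul hu.continuousAt)).eventually_ne
      (by simp [hu0])
  have hcc : ∀ᶠ t in 𝓝 t0, c t ≠ 0 := hc.continuousAt.eventually_ne (by simp [hc0])
  obtain ⟨ρ, hρ, hball⟩ := Metric.eventually_nhds_iff_ball.1
    ((show ∀ᶠ t in 𝓝 t0, t ∈ N0 from hN0).and (hu.eventually_analyticAt.and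
      (ha.eventually_analyticAt.and (hv.eventually_analyticAt.and (hb.eventually_analyticAt.and
        ((hsmall ha ha0).and ((hsmall hb hb0).and (hUc.and hcc))))))))
  set N := Metric.ball t0 ρ with hN
  have hNn : N ∈ 𝓝 t0 := Metric.ball_mem_nhds t0 hρ
  have ht0 : t0 ∈ N := Metric.mem_ball_self hρ
  have hNc : IsPreconnected N := (convex_ball t0 ρ).isPreconnected
  have huN : AnalyticOnNhd ℝ u N := fun t ht => (hball t ht).2.1
  have haN : AnalyticOnNhd ℝ a N := fun t ht => (hball t ht).2.2.1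
  have hvN : AnalyticOnNhd ℝ v N := fun t ht => (hball t ht).2.2.2.1
  have hbN : AnalyticOnNhd ℝ b N := fun t ht => (hball t ht).2.2.2.2.1
  have hU : ∀ t ∈ N, 1 + b1 * u t ≠ 0 := fun t ht => (hball t ht).2.2.2.2.2.2.2.1
  have hcN : ∀ t ∈ N, c t ≠ 0 := fun t ht => (hball t ht).2.2.2.2.2.2.2.2
  have hW : ∀ t ∈ N, ∀ t' ∈ N, 1 - a t * b t' ≠ 0 := by
    intro t ht t' ht' h
    have h1 := (hball t ht).2.2.2.2.2.1
    have h2 := (hball t' ht').2.2.2.2.2.2.1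
    have h3 : |a t * b t'| < 1 := by
      rw [abs_mul]
      exact mul_lt_one_of_nonneg_of_lt_one_left (abs_nonneg _) h1 h2.le
    rw [← sub_eq_zero.1 h] at h3
    simp at h3
  have hGN : ∀ t ∈ N, ∀ t' ∈ N,
      (p t * (1 - a t * b t') + q t * (v t' + b t' * u t)) * (1 - a t * b t') =
        r t' * (1 - a t * b t') ^ 2 + s t' * (u t + a t * v t') * (1 - a t * b t') +
          c t' * (u t + a t * v t') ^ 2 :=
    fun t ht t' ht' => hGE (mk_mem_prod (hball t ht).1 (hball t' ht').1)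
  have hp : ∀ t ∈ N, p t = u t ^ 2 := by
    intro t ht
    have := hGN t ht t0 ht0
    rw [hv0, hb0, hr0, hs0, hc0] at this
    linear_combination this
  have hr : ∀ t ∈ N, r t = 0 := by
    intro t ht
    have := hGN t0 ht0 t ht
    rw [hu0, ha0, hp0, hq0] at this
    linear_combination -this
  have hG2 : ∀ t ∈ N, ∀ t' ∈ N,
      (q t - 2 * u t * a t) * (v t' + b t' * u t) * (1 - a t * b t') =
        a t ^ 2 * (v t' + b t' * u t) ^ 2 + s t' * (u t + a t * v t') * (1 - a t * b t') -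
          (1 - c t') * (u t + a t * v t') ^ 2 := by
    intro t ht t' ht'
    have := hGN t ht t' ht'
    rw [hp t ht, hr t' ht'] at this
    linear_combination this
  have hκN : ∀ᶠ τ in 𝓝 (0 : ℝ), κ τ ∈ N := hκan.continuousAt.eventually (by rw [hκ0]; exact hNn)
  have hjet := fun t (ht : t ∈ N) => jet_eqs (u := u t) (a := a t) (q := q t - 2 * u t * a t)
    hν hβ hσ hγ hνe hβe hσe hγe (hκN.mono fun τ hτ => hG2 t ht _ hτ)
  obtain ⟨t1, ht1, hu1⟩ := exists_ne_of_fderiv_ne hdu hNn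
  have hinf : (u '' N).Infinite :=
    infinite_image_of_ne hNc huN.continuousOn ht1 ht0 hu1
  obtain ⟨t2, ht2, hv2⟩ := exists_ne_of_fderiv_ne hdv hNn
  have hcore := core hNc Metric.isOpen_ball ht0 (s := s) (c := c) huN haN hvN hbN hu0 ha0 hb0 hinf
    ⟨t2, ht2, by rwa [hv0] at hv2⟩ hcN b1 c1 s1 hU
    ((C c1 * X ^ 2 + C s1 * X) * (C (ν 0) + C (β 0) * X) - Up b1 * C (σ 0) * X -
      Up b1 * C (γ 0) * X ^ 2)
    (fun t ht => by
      obtain ⟨h1, h2⟩ := hjet t ht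
      simp only [Up, eOne, eval_add, eval_sub, eval_mul, eval_C, eval_X, eval_pow, eval_one,
        eval_neg, eval_ofNat]
      linear_combination (1 + b1 * u t) * h2 -
        (ν 0 + β 0 * u t - a t * b1 * (1 + b1 * u t)) * h1)
    (fun t ht t' ht' => by
      have h1 := (hjet t ht).1
      have h2 := hG2 t ht t' ht'
      simp only [Up, Lam, gOne, gZero, eval_add, eval_sub, eval_mul, eval_C, eval_X, eval_pow,
        eval_one, eval_neg, eval_ofNat]
      linear_combination (1 + b1 * u t) * h2 - (v t' + b t' * u t) * (1 - a t * b t') * h1)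
    (fun d a1 h => by
      have := two_jet_zero (E1 := b1 - d)
        (R := fun τ => β τ + a1 * (b1 + τ * β τ) * (1 + τ * ν τ) - d * ν τ) (by fun_prop)
        (hκN.mono fun τ hτ => by
          have h1 := h _ hτ
          rw [hνe, hβe] at h1
          linear_combination h1)
      linarith [this.1])
  rcases hcore with ⟨h1, h2⟩ | ⟨a1, h1, h2⟩
  · refine ⟨0, 0, 0, s1, ?_, Or.inl ⟨rfl, rfl, rfl⟩⟩
    filter_upwards [hNn] with t ht
    refine ⟨hp t ht, by simp [h2 t ht], ?_⟩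
    have h3 := (hjet t ht).1
    rw [h2 t ht, h1] at h3
    apply mul_left_cancel₀ (hU t ht)
    linear_combination h3
  · have hq : ∀ t ∈ N, q t * (1 + b1 * u t) = (2 * a1 + c1) * u t ^ 2 + s1 * u t := by
      intro t ht
      linear_combination (hjet t ht).1 + 2 * u t * h1 t ht
    refine ⟨a1, b1, 2 * a1 + c1, s1, ?_, Or.inr ?_⟩
    · filter_upwards [hNn] with t ht using ⟨hp t ht, h1 t ht, hq t ht⟩
    · have hVc : ∀ᶠ t in 𝓝 t0, 1 + a1 * v t ≠ 0 :=
        (continuousAt_const.add (continuousAt_const.mul hv.continuousAt)).eventually_ne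
          (by simp [hv0])
      filter_upwards [hNn, hVc] with t' ht' hV
      have hpoly := poly_eq_zero hinf
        (C (c t' * (1 + a1 * v t') ^ 2 - (1 + (2 * a1 + c1) * v t')) * X ^ 2 +
          C (s t' * (1 + a1 * v t') - s1 * v t') * X) (fun t ht => by
          have e1 : u t + a t * v t' = u t * (1 + a1 * v t') * (1 - a t * b t') := by
            apply mul_left_cancel₀ (hU t ht)
            linear_combination (v t' + u t * (1 + a1 * v t') * b t') * h1 t ht +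
              a1 * u t ^ 2 * h2 t' ht'
          have e2 : v t' + b t' * u t = v t' * (1 + b1 * u t) * (1 - a t * b t') := by
            apply mul_left_cancel₀ hV
            linear_combination (u t + v t' * (1 + b1 * u t) * a t) * h2 t' ht' +
              b1 * v t' ^ 2 * h1 t ht
          have e3 := hGN t ht t' ht'
          rw [hp t ht, hr t' ht', e1, e2] at e3
          simp only [eval_add, eval_mul, eval_C, eval_X, eval_pow]
          apply mul_left_cancel₀ (pow_ne_zero 2 (hW t ht t' ht'))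
          linear_combination -e3 + v t' * (1 - a t * b t') ^ 2 * hq t ht)
      have f1 := congrArg (eval 1) hpoly
      have f2 := congrArg (eval (-1)) hpoly
      simp only [eval_add, eval_mul, eval_C, eval_X, eval_pow, eval_zero] at f1 f2
      exact ⟨hr t' ht', h2 t' ht', by linear_combination (f1 - f2) / 2,
        by linear_combination (f1 + f2) / 2⟩

end Pool.Agent.P.MP_67bdec_gt
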