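import Pool.Agent.P.MP_67bdec_gt.Local

/-!
The global classification in normalised coordinates.
-/

namespace Pool.Agent.P.MP_67bdec_gt

open Set Filter Topology

theorem fderiv_sub_mul_ne {x a y : R2 → ℝ} {t0 : R2} (hx : AnalyticAt ℝ x t0)
    (ha : AnalyticAt ℝ a t0) (hy : AnalyticAt ℝ y t0) (ha0 : a t0 = 0) (hy0 : y t0 = 0)
    (h : fderiv ℝ x t0 ≠ 0) : fderiv ℝ (fun t => x t - a t * y t) t0 ≠ 0 := by
  have := hx.differentiableAt.hasFDerivAt.fun_sub
    (ha.differentiableAt.hasFDerivAt.fun_mul hy.differentiableAt.hasFDerivAt)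
  rw [this.fderiv, ha0, hy0]
  simpa using h

theorem an_continue {D : Set R2} (hD : IsPreconnected D) {t0 : R2} (ht0 : t0 ∈ D)
    {f g : R2 → ℝ} (hf : AnalyticOnNhd ℝ f D) (hg : AnalyticOnNhd ℝ g D)
    (h : ∀ᶠ t in 𝓝 t0, f t = g t) : ∀ t ∈ D, f t = g t :=
  fun _ ht => hf.eqOn_of_preconnected_of_eventuallyEq hg hD ht0 h ht

theorem global_norm {D : Set R2} (hD : IsPreconnected D) {t0 : R2} (ht0 : t0 ∈ D)
    {x y z l1 l2 l3 h1 h2 h3 c : R2 → ℝ}
    (hx : AnalyticOnNhd ℝ x D) (hy : AnalyticOnNhd ℝ y D) (hz : AnalyticOnNhd ℝ z D)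
    (hl1 : AnalyticOnNhd ℝ l1 D) (hl2 : AnalyticOnNhd ℝ l2 D) (hl3 : AnalyticOnNhd ℝ l3 D)
    (hh1 : AnalyticOnNhd ℝ h1 D) (hh2 : AnalyticOnNhd ℝ h2 D) (hh3 : AnalyticOnNhd ℝ h3 D)
    (hc : AnalyticOnNhd ℝ c D)
    (x0 : x t0 = 0) (y0 : y t0 = 0) (z0 : z t0 = 0)
    (l10 : l1 t0 = 0) (l20 : l2 t0 = 1) (l30 : l3 t0 = 0)
    (h10 : h1 t0 = 1) (h20 : h2 t0 = 0) (h30 : h3 t0 = 0) (c0 : c t0 = 1)
    (hdx : fderiv ℝ x t0 ≠ 0) (hdy : fderiv ℝ y t0 ≠ 0)
    (SI : ∀ᶠ pp : (R2 × ℝ) × (R2 × ℝ) in 𝓝 ((t0, 0), (t0, 0)),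
      x pp.1.1 + pp.1.2 * l1 pp.1.1 = x pp.2.1 + pp.2.2 * h1 pp.2.1 →
      y pp.1.1 + pp.1.2 * l2 pp.1.1 = y pp.2.1 + pp.2.2 * h2 pp.2.1 →
      z pp.1.1 + pp.1.2 * l3 pp.1.1 =
        z pp.2.1 + pp.2.2 * h3 pp.2.1 + pp.2.2 ^ 2 * c pp.2.1) :
    ∃ (a1 b1 g s1 : ℝ) (h : R2 → ℝ), AnalyticOnNhd ℝ h D ∧ h t0 ≠ 0 ∧
      ((a1 = 0 ∧ b1 = 0 ∧ g = 0) → ∀ t ∈ D, z t = x t ^ 2 + s1 * x t * y t) ∧
      ∀ t ∈ D, h t ≠ 0 → ∃ u v, 1 + b1 * u ≠ 0 ∧ 1 + a1 * v ≠ 0 ∧ 1 + g * v ≠ 0 ∧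
        x t = u * (1 + a1 * v) ∧ y t = v * (1 + b1 * u) ∧
        z t = u ^ 2 + v * (g * u ^ 2 + s1 * u) ∧ l2 t ≠ 0 ∧
        l1 t * (1 + b1 * u) = a1 * u * l2 t ∧
        l3 t * (1 + b1 * u) = (g * u ^ 2 + s1 * u) * l2 t ∧
        ((a1 = 0 ∧ b1 = 0 ∧ g = 0) ∨ (h2 t * (1 + a1 * v) = h1 t * (b1 * v) ∧
          h3 t * (1 + a1 * v) = h1 t * (2 * u * (1 + g * v) + s1 * v) ∧
          c t * (1 + a1 * v) ^ 2 = h1 t ^ 2 * (1 + g * v))) := by
  have ax := hx t0 ht0
  have ay := hy t0 ht0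
  have az := hz t0 ht0
  have al1 := hl1 t0 ht0
  have al2 := hl2 t0 ht0
  have al3 := hl3 t0 ht0
  have ah1 := hh1 t0 ht0
  have ah2 := hh2 t0 ht0
  have ah3 := hh3 t0 ht0
  have ac := hc t0 ht0
  have n2 : l2 t0 ≠ 0 := by rw [l20]; exact one_ne_zero
  have n1 : h1 t0 ≠ 0 := by rw [h10]; exact one_ne_zero
  let a : R2 → ℝ := fun t => l1 t / l2 t
  let q : R2 → ℝ := fun t => l3 t / l2 t
  let u : R2 → ℝ := fun t => x t - a t * y t
  let p : R2 → ℝ := fun t => z t - q t * y t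
  let b : R2 → ℝ := fun t => h2 t / h1 t
  let v : R2 → ℝ := fun t => y t - b t * x t
  let cn : R2 → ℝ := fun t => c t / h1 t ^ 2
  let s : R2 → ℝ := fun t => h3 t / h1 t - 2 * cn t * x t
  let r : R2 → ℝ := fun t => z t - s t * x t - cn t * x t ^ 2
  have aa : AnalyticAt ℝ a t0 := al1.div al2 n2
  have ab : AnalyticAt ℝ b t0 := ah2.div ah1 n1
  have au : AnalyticAt ℝ u t0 := ax.sub (aa.mul ay)
  have av : AnalyticAt ℝ v t0 := ay.sub (ab.mul ax)
  have acn : AnalyticAt ℝ cn t0 := ac.div (ah1.pow 2) (pow_ne_zero 2 n1)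
  have as : AnalyticAt ℝ s t0 := (ah3.div ah1 n1).sub ((analyticAt_const.mul acn).mul ax)
  have a0 : a t0 = 0 := by simp [a, l10]
  have b0 : b t0 = 0 := by simp [b, h20]
  have u0 : u t0 = 0 := by simp [u, x0, y0]
  have v0 : v t0 = 0 := by simp [v, x0, y0]
  have e2 : ∀ᶠ t in 𝓝 t0, l2 t ≠ 0 := al2.continuousAt.eventually_ne n2
  have e1 : ∀ᶠ t in 𝓝 t0, h1 t ≠ 0 := ah1.continuousAt.eventually_ne n1
  have t1 : Tendsto (fun tt : R2 × R2 => tt.1) (𝓝 (t0, t0)) (𝓝 t0) :=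
    continuous_fst.continuousAt.tendsto
  have t2 : Tendsto (fun tt : R2 × R2 => tt.2) (𝓝 (t0, t0)) (𝓝 t0) :=
    continuous_snd.continuousAt.tendsto
  have c1 : ∀ {f : R2 → ℝ}, AnalyticAt ℝ f t0 → ContinuousAt (fun tt : R2 × R2 => f tt.1) (t0, t0) :=
    fun hf => ContinuousAt.comp (g := _) (f := fun tt : R2 × R2 => tt.1) hf.continuousAt
      continuousAt_fst
  have c2 : ∀ {f : R2 → ℝ}, AnalyticAt ℝ f t0 → ContinuousAt (fun tt : R2 × R2 => f tt.2) (t0, t0) :=
    fun hf => ContinuousAt.comp (g := _) (f := fun tt : R2 × R2 => tt.2) hf.continuousAt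
      continuousAt_snd
  have cW : ContinuousAt (fun tt : R2 × R2 => 1 - a tt.1 * b tt.2) (t0, t0) :=
    continuousAt_const.sub ((c1 aa).mul (c2 ab))
  have nW : 1 - a t0 * b t0 ≠ 0 := by simp [a0]
  have eW : ∀ᶠ tt : R2 × R2 in 𝓝 (t0, t0), 1 - a tt.1 * b tt.2 ≠ 0 := cW.eventually_ne nW
  let sp : R2 × R2 → ℝ := fun tt =>
    ((v tt.2 + b tt.2 * u tt.1) / (1 - a tt.1 * b tt.2) - y tt.1) / l2 tt.1
  let sg : R2 × R2 → ℝ := fun tt =>
    ((u tt.1 + a tt.1 * v tt.2) / (1 - a tt.1 * b tt.2) - x tt.2) / h1 tt.2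
  have csp : ContinuousAt sp (t0, t0) :=
    ((((c2 av).add ((c2 ab).mul (c1 au))).div cW nW).sub (c1 ay)).div (c1 al2) n2
  have csg : ContinuousAt sg (t0, t0) :=
    ((((c1 au).add ((c1 aa).mul (c2 av))).div cW nW).sub (c2 ax)).div (c2 ah1) n1
  have tall : Tendsto (fun tt : R2 × R2 => ((tt.1, sp tt), (tt.2, sg tt))) (𝓝 (t0, t0))
      (𝓝 ((t0, 0), (t0, 0))) := by
    have h : ContinuousAt (fun tt : R2 × R2 => ((tt.1, sp tt), (tt.2, sg tt))) (t0, t0) :=
      (continuousAt_fst.prodMk csp).prodMk (continuousAt_snd.prodMk csg)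
    have := h.tendsto
    simpa [sp, sg, u0, v0, x0, y0] using this
  obtain ⟨a1, b1, g, s1, hA, hB⟩ := local_class (p := p) (q := q) (r := r) au aa av ab as acn u0 a0
    (by simp [p, z0, y0]) (by simp [q, l30]) v0 b0 (by simp [r, z0, x0]) (by simp [s, h30, x0])
    (by simp [cn, c0, h10]) (fderiv_sub_mul_ne ax aa ay a0 y0 hdx)
    (fderiv_sub_mul_ne ay ab ax b0 x0 hdy) (by
      filter_upwards [tall.eventually SI, t1.eventually e2, t2.eventually e1, eW] with
        tt hSI m2 m1 mW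
      obtain ⟨t, t'⟩ := tt
      simp only at hSI m2 m1 mW ⊢
      set X := (u t + a t * v t') / (1 - a t * b t') with hX
      set Y := (v t' + b t' * u t) / (1 - a t * b t') with hY
      have hXW : u t + a t * v t' = X * (1 - a t * b t') := (div_mul_cancel₀ _ mW).symm
      have hYW : v t' + b t' * u t = Y * (1 - a t * b t') := (div_mul_cancel₀ _ mW).symm
      have hXY : X = u t + a t * Y := by
        apply mul_right_cancel₀ mW
        linear_combination -hXW + a t * hYW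
      have hYX : Y = v t' + b t' * X := by
        apply mul_right_cancel₀ mW
        linear_combination -hYW + b t' * hXW
      have k1 : sp (t, t') * l2 t = Y - y t := by simp only [sp, ← hY]; field_simp
      have k2 : sg (t, t') * h1 t' = X - x t' := by simp only [sg, ← hX]; field_simp
      have f1 : l1 t = a t * l2 t := by simp only [a]; field_simp
      have f3 : l3 t = q t * l2 t := by simp only [q]; field_simp
      have f2 : h2 t' = b t' * h1 t' := by simp only [b]; field_simp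
      have f4 : c t' = cn t' * h1 t' ^ 2 := by simp only [cn]; field_simp
      have f5 : h3 t' = (s t' + 2 * cn t' * x t') * h1 t' := by simp only [s]; field_simp; ring
      have key := hSI (by
        rw [f1]
        have : u t = x t - a t * y t := rfl
        linear_combination a t * k1 - k2 - hXY - this) (by
        rw [f2]
        have : v t' = y t' - b t' * x t' := rfl
        linear_combination k1 - b t' * k2 + hYX + this)
      rw [f3, f4, f5] at key
      have key2 : p t + q t * Y = r t' + s t' * X + cn t' * X ^ 2 := by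
        have d1 : p t = z t - q t * y t := rfl
        have d2 : r t' = z t' - s t' * x t' - cn t' * x t' ^ 2 := rfl
        linear_combination key + d1 - d2 - q t * k1 + (s t' + 2 * cn t' * x t' +
          cn t' * (sg (t, t') * h1 t' + X - x t')) * k2
      rw [hXW, hYW]
      linear_combination (1 - a t * b t') ^ 2 * key2)
  let ut : R2 → ℝ := fun t => x t * l2 t - l1 t * y t
  let Ut : R2 → ℝ := fun t => l2 t + b1 * ut t
  let Vt : R2 → ℝ := fun t => Ut t + a1 * (y t * l2 t)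
  let Gt : R2 → ℝ := fun t => Ut t + g * (y t * l2 t)
  have hut : AnalyticOnNhd ℝ ut D := (hx.mul hl2).sub (hl1.mul hy)
  have hUt : AnalyticOnNhd ℝ Ut D := hl2.add (analyticOnNhd_const.mul hut)
  have hVt : AnalyticOnNhd ℝ Vt D := hUt.add (analyticOnNhd_const.mul (hy.mul hl2))
  have hGt : AnalyticOnNhd ℝ Gt D := hUt.add (analyticOnNhd_const.mul (hy.mul hl2))
  have hul : ∀ t, l2 t ≠ 0 → ut t = u t * l2 t ∧ Ut t = (1 + b1 * u t) * l2 t ∧
      l1 t = a t * l2 t ∧ l3 t = q t * l2 t := by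
    intro t ht
    refine ⟨?_, ?_, ?_, ?_⟩ <;> simp only [Ut, ut, u, a, q] <;> field_simp
  have I1 : ∀ t ∈ D, l1 t * Ut t = a1 * ut t * l2 t :=
    an_continue hD ht0 (hl1.mul hUt) ((analyticOnNhd_const.mul hut).mul hl2) (by
      filter_upwards [hA, e2] with t hA m2
      obtain ⟨d1, d2, d3, -⟩ := hul t m2
      rw [d1, d2, d3]
      linear_combination l2 t ^ 2 * hA.2.1)
  have I2 : ∀ t ∈ D, l3 t * Ut t = g * ut t ^ 2 + s1 * ut t * l2 t :=
    an_continue hD ht0 (hl3.mul hUt) ((analyticOnNhd_const.mul (hut.pow 2)).add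
      ((analyticOnNhd_const.mul hut).mul hl2)) (by
      filter_upwards [hA, e2] with t hA m2
      obtain ⟨d1, d2, -, d4⟩ := hul t m2
      rw [d1, d2, d4]
      linear_combination l2 t ^ 2 * hA.2.2)
  have I3 : ∀ t ∈ D, (z t * l2 t - l3 t * y t) * l2 t = ut t ^ 2 :=
    an_continue hD ht0 (((hz.mul hl2).sub (hl3.mul hy)).mul hl2) (hut.pow 2) (by
      filter_upwards [hA, e2] with t hA m2
      obtain ⟨d1, -, -, d4⟩ := hul t m2
      have d5 : p t = z t - q t * y t := rfl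
      rw [d1, d4]
      linear_combination l2 t ^ 2 * hA.1 - l2 t ^ 2 * d5)
  have J : (a1 = 0 ∧ b1 = 0 ∧ g = 0) ∨ ∀ t ∈ D, h2 t * Vt t = h1 t * (b1 * (y t * l2 t)) ∧
      h3 t * Vt t * l2 t = h1 t * (2 * ut t * Gt t + s1 * (y t * l2 t ^ 2)) ∧
      c t * Vt t ^ 2 = h1 t ^ 2 * (Ut t * Gt t) := by
    refine hB.imp id fun hB => ?_
    have eW' : ∀ᶠ t in 𝓝 t0, 1 - a t * b t ≠ 0 :=
      (continuousAt_const.sub (aa.continuousAt.mul ab.continuousAt)).eventually_ne nW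
    have eV : ∀ᶠ t in 𝓝 t0, 1 + a1 * v t ≠ 0 :=
      (continuousAt_const.add (continuousAt_const.mul av.continuousAt)).eventually_ne
        (by simp [v0])
    have hall : ∀ᶠ t in 𝓝 t0, h2 t * Vt t = h1 t * (b1 * (y t * l2 t)) ∧
        h3 t * Vt t * l2 t = h1 t * (2 * ut t * Gt t + s1 * (y t * l2 t ^ 2)) ∧
        c t * Vt t ^ 2 = h1 t ^ 2 * (Ut t * Gt t) := by
      filter_upwards [hA, hB, e2, e1, eW', eV] with t hA hB m2 m1 mW mV
      obtain ⟨d1, d2, -, -⟩ := hul t m2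
      have du : u t = x t - a t * y t := rfl
      have dv : v t = y t - b t * x t := rfl
      have hyv : y t = v t * (1 + b1 * u t) := by
        apply mul_left_cancel₀ (mul_ne_zero mW mV)
        linear_combination (u t + v t * (1 + b1 * u t) * a t) * hB.2.1 +
          b1 * v t ^ 2 * hA.2.1 - (1 + a1 * v t) * dv - (1 + a1 * v t) * b t * du
      have hxu : x t = u t * (1 + a1 * v t) := by
        linear_combination -du + a t * hyv + v t * hA.2.1
      have f2 : h2 t = b t * h1 t := by simp only [b]; field_simp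
      have f4 : c t = cn t * h1 t ^ 2 := by simp only [cn]; field_simp
      have f5 : h3 t = (s t + 2 * cn t * x t) * h1 t := by simp only [s]; field_simp; ring
      have d3 : Vt t = (1 + b1 * u t) * l2 t * (1 + a1 * v t) := by
        simp only [Vt]; rw [d2, hyv]; ring
      have d4 : Gt t = (1 + b1 * u t) * l2 t * (1 + g * v t) := by
        simp only [Gt]; rw [d2, hyv]; ring
      rw [d1, d2, d3, d4, f2, f4, f5, hxu, hyv]
      refine ⟨?_, ?_, ?_⟩
      · linear_combination h1 t * (1 + b1 * u t) * l2 t * hB.2.1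
      · linear_combination h1 t * (1 + b1 * u t) * l2 t ^ 2 * hB.2.2.1 +
          2 * u t * h1 t * (1 + b1 * u t) * l2 t ^ 2 * hB.2.2.2
      · linear_combination (h1 t * (1 + b1 * u t) * l2 t) ^ 2 * hB.2.2.2
    intro t ht
    exact ⟨an_continue hD ht0 (hh2.mul hVt) (hh1.mul (analyticOnNhd_const.mul (hy.mul hl2)))
        (hall.mono fun t h => h.1) t ht,
      an_continue hD ht0 ((hh3.mul hVt).mul hl2) (hh1.mul (((analyticOnNhd_const.mul hut).mul
        hGt).add (analyticOnNhd_const.mul (hy.mul (hl2.pow 2))))) (hall.mono fun t h => h.2.1) t ht,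
      an_continue hD ht0 (hc.mul (hVt.pow 2)) ((hh1.pow 2).mul (hUt.mul hGt))
        (hall.mono fun t h => h.2.2) t ht⟩
  refine ⟨a1, b1, g, s1, fun t => l2 t * Ut t * Vt t * Gt t,
    ((hl2.mul hUt).mul hVt).mul hGt, by simp [Ut, Vt, Gt, ut, x0, y0, l20], ?_, ?_⟩
  · rintro ⟨rfl, rfl, rfl⟩
    refine an_continue hD ht0 hz ((hx.pow 2).add ((analyticOnNhd_const.mul hx).mul hy)) ?_
    filter_upwards [hA] with t hA
    obtain ⟨k1, k2, k3⟩ := hA
    have du : u t = x t - a t * y t := rfl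
    have dp : p t = z t - q t * y t := rfl
    simp only [zero_mul, add_zero, mul_one, zero_add] at k2 k3
    rw [k2] at du
    rw [k1, k3, du] at dp
    linear_combination -dp
  intro t ht hne
  simp only [mul_ne_zero_iff] at hne
  obtain ⟨⟨⟨m2, mU⟩, mV⟩, mG⟩ := hne
  obtain ⟨d1, d2, d3, d4⟩ := hul t m2
  have mU' : 1 + b1 * u t ≠ 0 := fun h => mU (by rw [d2, h, zero_mul])
  set w := y t / (1 + b1 * u t) with hw
  have hyv : y t = w * (1 + b1 * u t) := by rw [hw]; field_simp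
  have d5 : Vt t = (1 + b1 * u t) * l2 t * (1 + a1 * w) := by
    simp only [Vt]; rw [d2, hyv]; ring
  have d6 : Gt t = (1 + b1 * u t) * l2 t * (1 + g * w) := by
    simp only [Gt]; rw [d2, hyv]; ring
  have i1 : a t * (1 + b1 * u t) = a1 * u t := by
    have := I1 t ht
    rw [d1, d2, d3] at this
    apply mul_left_cancel₀ (pow_ne_zero 2 m2)
    linear_combination this
  have i2 : q t * (1 + b1 * u t) = g * u t ^ 2 + s1 * u t := by
    have := I2 t ht
    rw [d1, d2, d4] at this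
    apply mul_left_cancel₀ (pow_ne_zero 2 m2)
    linear_combination this
  have i3 : z t - q t * y t = u t ^ 2 := by
    have := I3 t ht
    rw [d1, d4] at this
    apply mul_left_cancel₀ (pow_ne_zero 2 m2)
    linear_combination this
  have du : u t = x t - a t * y t := rfl
  refine ⟨u t, w, mU', fun h => mV (by rw [d5, h, mul_zero]), fun h => mG (by rw [d6, h, mul_zero]),
    by linear_combination -du + a t * hyv + w * i1, hyv,
    by linear_combination i3 + q t * hyv + w * i2, m2,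
    by rw [d3]; linear_combination l2 t * i1, by rw [d4]; linear_combination l2 t * i2,
    J.imp id fun J => ?_⟩
  obtain ⟨j1, j2, j3⟩ := J t ht
  rw [d5] at j1 j2 j3
  rw [d6] at j2 j3
  rw [d1] at j2
  rw [d2] at j3
  refine ⟨?_, ?_, ?_⟩
  · apply mul_left_cancel₀ (mul_ne_zero mU' m2)
    linear_combination j1 + h1 t * b1 * l2 t * hyv
  · apply mul_left_cancel₀ (mul_ne_zero mU' (pow_ne_zero 2 m2))
    linear_combination j2 + h1 t * s1 * l2 t ^ 2 * hyv
  · apply mul_left_cancel₀ (pow_ne_zero 2 (mul_ne_zero mU' m2))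
    linear_combination j3

end Pool.Agent.P.MP_67bdec_gt
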