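import Pool.Agent.P.MP_67bdec_gt.Defs

/-!
Local analysis: a family of curves contained in the surface lies in the sheet through the base
point; zero sets of analytic functions have dimension at most one.
-/

namespace Pool.Agent.P.MP_67bdec_gt

open Set Filter Topology

theorem an_local_inverse {E : Type*} [NormedAddCommGroup E] [NormedSpace ℝ E]
    [FiniteDimensional ℝ E] {Ψ : E → E} {a : E} (hΨ : AnalyticAt ℝ Ψ a)
    (hinj : Function.Injective (fderiv ℝ Ψ a)) :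
    ∃ Ω : E → E, AnalyticAt ℝ Ω (Ψ a) ∧ Ω (Ψ a) = a ∧ (∀ᶠ x in 𝓝 a, Ω (Ψ x) = x) ∧
      ∀ᶠ y in 𝓝 (Ψ a), Ψ (Ω y) = y := by
  have : CompleteSpace E := FiniteDimensional.complete ℝ E
  let e : E ≃L[ℝ] E := (LinearEquiv.ofInjectiveEndo (fderiv ℝ Ψ a).toLinearMap
    hinj).toContinuousLinearEquiv
  have he : (e : E →L[ℝ] E) = fderiv ℝ Ψ a := by ext x; rfl
  have hd : HasFDerivAt Ψ (e : E →L[ℝ] E) a := he ▸ hΨ.differentiableAt.hasFDerivAt
  have hc : ContDiffAt ℝ ⊤ Ψ a := hΨ.contDiffAt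
  have hs := hc.hasStrictFDerivAt' hd (by simp)
  exact ⟨hc.localInverse hd (by simp), (hc.to_localInverse hd (by simp)).analyticAt,
    hc.localInverse_apply_image hd (by simp), hs.eventually_left_inverse,
    hs.eventually_right_inverse⟩

/-- The top view. -/
def topv : R3 →L[ℝ] R2 :=
  (ContinuousLinearMap.fst ℝ ℝ (ℝ × ℝ)).prod
    ((ContinuousLinearMap.fst ℝ ℝ ℝ).comp (ContinuousLinearMap.snd ℝ ℝ (ℝ × ℝ)))

@[simp] theorem topv_apply (p : R3) : topv p = (p.1, p.2.1) := rfl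

theorem dimH_image_an {Y : Type*} [NormedAddCommGroup Y] [NormedSpace ℝ Y] [CompleteSpace Y]
    {F : R2 → Y} {D Z : Set R2} (hF : AnalyticOnNhd ℝ F D) (hZ : Z ⊆ D) :
    dimH (F '' Z) ≤ dimH Z := by
  refine dimH_image_le_of_locally_lipschitzOn fun x hx => ?_
  obtain ⟨K, t, ht, hK⟩ := ((hF x (hZ hx)).contDiffAt (n := 1)).exists_lipschitzOnWith
  exact ⟨K, t, mem_nhdsWithin_of_mem_nhds ht, hK⟩

theorem not_mem_nhds_of_surface {F : R2 → R3} {D : Set R2} (hF : AnalyticOnNhd ℝ F D) (p : R3) :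
    F '' D ∉ 𝓝 p := by
  intro h
  have h1 := Real.dimH_of_mem_nhds h
  have h2 := (dimH_image_an hF Subset.rfl).trans (dimH_mono (subset_univ D))
  rw [Real.dimH_univ_eq_finrank, h1] at h2
  simp only [Module.finrank_prod, Module.finrank_self] at h2
  norm_num at h2

theorem sheet {F : R2 → R3} {G : R2 × ℝ → R3} {S : Set R3} (hS : ∀ p, S ∉ 𝓝 p) {t0 : R2}
    (hG : AnalyticAt ℝ G (t0, 0)) (hGF : ∀ᶠ t in 𝓝 t0, G (t, 0) = F t)
    (hinj : Function.Injective (fderiv ℝ (fun t => topv (F t)) t0))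
    (hW : ∀ᶠ p : R2 × ℝ in 𝓝 (t0, 0), 0 < p.2 → G p ∈ S) {V : Set R2} (hV : V ∈ 𝓝 t0) :
    ∀ᶠ p in 𝓝 (t0, (0 : ℝ)), ∃ t1 ∈ V, G p = F t1 := by
  let Ψ : R2 × ℝ → R2 × ℝ := fun p => (topv (G p), p.2)
  have hπG : AnalyticAt ℝ (fun p => topv (G p)) (t0, 0) := (topv.analyticAt _).comp hG
  have hΨ : AnalyticAt ℝ Ψ (t0, 0) := hπG.prod analyticAt_snd
  have hΨinj : Function.Injective (fderiv ℝ Ψ (t0, 0)) := by
    have h1 : HasFDerivAt Ψ ((fderiv ℝ (fun p => topv (G p)) (t0, 0)).prod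
        (ContinuousLinearMap.snd ℝ R2 ℝ)) (t0, 0) :=
      hπG.differentiableAt.hasFDerivAt.prodMk hasFDerivAt_snd
    have h2 : HasFDerivAt (fun t : R2 => topv (G (t, 0)))
        ((fderiv ℝ (fun p => topv (G p)) (t0, 0)).comp (ContinuousLinearMap.inl ℝ R2 ℝ)) t0 :=
      HasFDerivAt.comp (g := fun p => topv (G p)) (f := fun t : R2 => (t, (0 : ℝ))) t0
        hπG.differentiableAt.hasFDerivAt (hasFDerivAt_prodMk_left t0 0)
    have h3 : HasFDerivAt (fun t : R2 => topv (F t))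
        ((fderiv ℝ (fun p => topv (G p)) (t0, 0)).comp (ContinuousLinearMap.inl ℝ R2 ℝ)) t0 :=
      h2.congr_of_eventuallyEq (hGF.mono fun t ht => by simp only [ht])
    rw [h3.fderiv] at hinj
    rw [h1.fderiv]
    refine (injective_iff_map_eq_zero _).2 fun k hk => ?_
    simp only [ContinuousLinearMap.prod_apply, ContinuousLinearMap.coe_snd', Prod.mk_eq_zero] at hk
    have hk1 : k = (k.1, 0) := Prod.ext rfl hk.2
    have := (injective_iff_map_eq_zero _).1 hinj k.1 (by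
      rw [hk1] at hk
      exact hk.1)
    rw [hk1, this]; rfl
  obtain ⟨Ω, hΩ, hΩ0, hleft, hright⟩ := an_local_inverse hΨ hΨinj
  set q0 := Ψ (t0, 0) with hq0
  have hq02 : q0.2 = 0 := rfl
  have hΩt : Tendsto Ω (𝓝 q0) (𝓝 (t0, 0)) := by
    have := hΩ.continuousAt.tendsto
    rwa [hΩ0] at this
  let K : R2 × ℝ → ℝ := fun q => (G (Ω q)).2.2
  have hK : AnalyticAt ℝ K q0 := by
    have h1 : AnalyticAt ℝ G (Ω q0) := by rw [hΩ0]; exact hG
    exact analyticAt_snd.comp (analyticAt_snd.comp (h1.comp hΩ))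
  have hfst : Tendsto (fun p : R2 × ℝ => p.1) (𝓝 (t0, (0 : ℝ))) (𝓝 t0) :=
    continuous_fst.continuousAt.tendsto
  have hall : ∀ᶠ q in 𝓝 q0, AnalyticAt ℝ K q ∧ Ψ (Ω q) = q ∧ (0 < (Ω q).2 → G (Ω q) ∈ S) ∧
      G ((Ω q).1, 0) = F (Ω q).1 ∧ (Ω q).1 ∈ V :=
    hK.eventually_analyticAt.and (hright.and ((hΩt.eventually hW).and
      (((hfst.comp hΩt).eventually hGF).and ((hfst.comp hΩt).eventually hV))))
  obtain ⟨r, hr, hball⟩ := Metric.eventually_nhds_iff_ball.1 hall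
  have hΩ2 : ∀ q ∈ Metric.ball q0 r, (Ω q).2 = q.2 := fun q hq =>
    (congrArg Prod.snd (hball q hq).2.1 : (Ψ (Ω q)).2 = q.2)
  have hGΩ : ∀ q ∈ Metric.ball q0 r, G (Ω q) = (q.1.1, q.1.2, K q) := by
    intro q hq
    have h1 : topv (G (Ω q)) = q.1 := congrArg Prod.fst (hball q hq).2.1
    rw [← h1]; rfl
  let K' : R2 × ℝ → ℝ := fun q => fderiv ℝ K q (0, 1)
  have hK'an : AnalyticOnNhd ℝ K' (Metric.ball q0 r) := fun q hq =>
    ((ContinuousLinearMap.apply ℝ ℝ ((0 : R2), (1 : ℝ))).analyticAt _).comp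
      (hball q hq).1.fderiv
  have hopen : IsOpen (Metric.ball q0 r ∩ {q : R2 × ℝ | 0 < q.2}) :=
    Metric.isOpen_ball.inter (isOpen_lt continuous_const continuous_snd)
  have hzero : ∀ q ∈ Metric.ball q0 r ∩ {q : R2 × ℝ | 0 < q.2}, K' q = 0 := by
    intro q hq
    by_contra hne
    let Θ : R2 × ℝ → R3 := fun q => (q.1.1, q.1.2, K q)
    have hd : HasStrictFDerivAt Θ
        (((ContinuousLinearMap.fst ℝ ℝ ℝ).comp (ContinuousLinearMap.fst ℝ R2 ℝ)).prod
          (((ContinuousLinearMap.snd ℝ ℝ ℝ).comp (ContinuousLinearMap.fst ℝ R2 ℝ)).prod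
            (fderiv ℝ K q))) q :=
      (hasStrictFDerivAt_fst.fst).prodMk ((hasStrictFDerivAt_fst.snd).prodMk
        (hball q hq.1).1.hasStrictFDerivAt)
    have hmap := hd.map_nhds_eq_of_surj (by
      rw [LinearMap.range_eq_top]
      rintro ⟨x, y, z⟩
      refine ⟨((x, y), 0) + ((z - fderiv ℝ K q ((x, y), 0)) / K' q) • ((0 : R2), (1 : ℝ)), ?_⟩
      simp only [ContinuousLinearMap.coe_coe, ContinuousLinearMap.prod_apply, map_add, map_smul]
      simp only [K'] at hne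
      ext
      · simp
      · simp
      · simp only [Prod.smul_snd, Prod.snd_add, smul_eq_mul, K']
        field_simp
        ring)
    apply hS (Θ q)
    rw [← hmap, mem_map]
    filter_upwards [hopen.mem_nhds hq] with q' hq'
    have h1 := (hball q' hq'.1).2.2.1 (by rw [hΩ2 q' hq'.1]; exact hq'.2)
    rw [hGΩ q' hq'.1] at h1
    exact h1
  have hq1 : (q0.1, r / 2) ∈ Metric.ball q0 r ∩ {q : R2 × ℝ | 0 < q.2} := by
    refine ⟨?_, by simpa using hr⟩
    rw [Metric.mem_ball, Prod.dist_eq, hq02]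
    simp only [dist_self, dist_zero_right, Real.norm_eq_abs]
    rw [abs_of_pos (by linarith)]
    exact max_lt hr (by linarith)
  have hK'0 : EqOn K' 0 (Metric.ball q0 r) :=
    hK'an.eqOn_zero_of_preconnected_of_eventuallyEq_zero (convex_ball q0 r).isPreconnected hq1.1
      (by filter_upwards [hopen.mem_nhds hq1] with q hq using hzero q hq)
  have hconst : ∀ q ∈ Metric.ball q0 r, (q.1, (0 : ℝ)) ∈ Metric.ball q0 r ∧ K q = K (q.1, 0) := by
    intro q hq
    have hmem : ∀ s ∈ Metric.ball (0 : ℝ) r, (q.1, s) ∈ Metric.ball q0 r := by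
      intro s hs
      rw [Metric.mem_ball, Prod.dist_eq] at hq ⊢
      exact max_lt (lt_of_le_of_lt (le_max_left _ _) hq) (by rw [hq02]; exact hs)
    have hq2 : q.2 ∈ Metric.ball (0 : ℝ) r := by
      rw [Metric.mem_ball, Prod.dist_eq] at hq
      exact lt_of_le_of_lt (le_max_right _ _) hq
    have hder : ∀ s ∈ Metric.ball (0 : ℝ) r, HasDerivAt (fun s => K (q.1, s)) (K' (q.1, s)) s := by
      intro s hs
      exact (hball _ (hmem s hs)).1.differentiableAt.hasFDerivAt.comp_hasDerivAt s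
        ((hasDerivAt_const s q.1).prodMk (hasDerivAt_id s))
    refine ⟨hmem 0 (Metric.mem_ball_self hr), ?_⟩
    exact Metric.isOpen_ball.is_const_of_deriv_eq_zero (convex_ball _ _).isPreconnected
      (f := fun s => K (q.1, s))
      (fun s hs => (hder s hs).differentiableAt.differentiableWithinAt)
      (fun s hs => by rw [(hder s hs).deriv]; exact hK'0 (hmem s hs)) hq2
      (Metric.mem_ball_self hr)
  filter_upwards [hleft, hΨ.continuousAt.eventually (Metric.ball_mem_nhds q0 hr)] with p hp hpb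
  obtain ⟨h1, h2⟩ := hconst _ hpb
  refine ⟨(Ω ((Ψ p).1, 0)).1, (hball _ h1).2.2.2.2, ?_⟩
  rw [← (hball _ h1).2.2.2.1]
  have h3 : ((Ω ((Ψ p).1, 0)).1, (0 : ℝ)) = Ω ((Ψ p).1, 0) := Prod.ext rfl (hΩ2 _ h1).symm
  rw [h3, hGΩ _ h1, ← h2, ← hGΩ _ hpb, hp]

theorem dimH_regular_zero {g : R2 → ℝ} {p : R2} (hg : AnalyticAt ℝ g p)
    (hd : fderiv ℝ g p ≠ 0) : ∃ V ∈ 𝓝 p, dimH (V ∩ {t | g t = 0}) ≤ 1 := by
  set L := fderiv ℝ g p with hL
  let ℓ : R2 →L[ℝ] ℝ := L (0, 1) • ContinuousLinearMap.fst ℝ ℝ ℝ -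
    L (1, 0) • ContinuousLinearMap.snd ℝ ℝ ℝ
  let Θ : R2 → R2 := fun t => (ℓ t, g t)
  have hΘ : AnalyticAt ℝ Θ p := (ℓ.analyticAt p).prod hg
  have hLe : ∀ k : R2, L k = k.1 * L (1, 0) + k.2 * L (0, 1) := by
    intro k
    have : k = k.1 • ((1 : ℝ), (0 : ℝ)) + k.2 • ((0 : ℝ), (1 : ℝ)) := by ext <;> simp
    conv_lhs => rw [this]
    rw [map_add, map_smul, map_smul]; rfl
  have hinj : Function.Injective (fderiv ℝ Θ p) := by
    have h1 : HasFDerivAt Θ (ℓ.prod L) p := ℓ.hasFDerivAt.prodMk hg.differentiableAt.hasFDerivAt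
    rw [h1.fderiv]
    refine (injective_iff_map_eq_zero _).2 fun k hk => ?_
    simp only [ContinuousLinearMap.prod_apply, Prod.mk_eq_zero] at hk
    obtain ⟨hk1, hk2⟩ := hk
    rw [hLe] at hk2
    simp only [ℓ, sub_apply, smul_apply,
      ContinuousLinearMap.coe_fst', ContinuousLinearMap.coe_snd', smul_eq_mul] at hk1
    have hne : L (1, 0) ^ 2 + L (0, 1) ^ 2 ≠ 0 := by
      intro h
      have h1 : L (1, 0) = 0 := by nlinarith
      have h2 : L (0, 1) = 0 := by nlinarith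
      apply hd
      ext1
      · ext; simpa using h1
      · ext; simpa using h2
    ext
    · apply mul_left_cancel₀ hne
      simp only [Prod.fst_zero]
      linear_combination L (0, 1) * hk1 + L (1, 0) * hk2
    · apply mul_left_cancel₀ hne
      simp only [Prod.snd_zero]
      linear_combination -L (1, 0) * hk1 + L (0, 1) * hk2
  obtain ⟨Ω, hΩ, -, hleft, -⟩ := an_local_inverse hΘ hinj
  let W := {q | AnalyticAt ℝ Ω q}
  have hW : W ∈ 𝓝 (Θ p) := hΩ.eventually_analyticAt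
  refine ⟨{t | Ω (Θ t) = t} ∩ Θ ⁻¹' W, inter_mem hleft (hΘ.continuousAt hW), ?_⟩
  have hsub : {t | Ω (Θ t) = t} ∩ Θ ⁻¹' W ∩ {t | g t = 0} ⊆
      Ω '' (W ∩ range fun x : ℝ => (x, (0 : ℝ))) := by
    rintro t ⟨⟨h1, h2⟩, h3⟩
    exact ⟨Θ t, ⟨h2, ℓ t, Prod.ext rfl h3.symm⟩, h1⟩
  refine (dimH_mono hsub).trans ((dimH_image_an (D := W) (fun q hq => hq)
    inter_subset_left).trans ((dimH_mono inter_subset_right).trans ?_))
  have := (ContDiff.dimH_range_le (f := fun x : ℝ => (x, (0 : ℝ))) (by fun_prop))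
  simpa using this

theorem dimH_le_of_local {s : Set R2} {r : ENNReal} (h : ∀ x ∈ s, ∃ t ∈ 𝓝[s] x, dimH t ≤ r) :
    dimH s ≤ r := by
  by_contra hlt
  obtain ⟨x, hx, hx'⟩ := exists_mem_nhdsWithin_lt_dimH_of_lt_dimH (not_le.1 hlt)
  obtain ⟨t, ht, ht'⟩ := h x hx
  exact (hx' t ht).not_ge ht'

theorem dimH_zero_set {h : R2 → ℝ} {D : Set R2} (hD : IsPreconnected D)
    (hh : AnalyticOnNhd ℝ h D) {t0 : R2} (ht0 : t0 ∈ D) (h0 : h t0 ≠ 0) :
    dimH {t ∈ D | h t = 0} ≤ 1 := by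
  let Z : ℕ → Set R2 := fun n => {t ∈ D | iteratedFDeriv ℝ n h t = 0 ∧
    iteratedFDeriv ℝ (n + 1) h t ≠ 0}
  have hZ : ∀ n, dimH (Z n) ≤ 1 := by
    intro n
    refine dimH_le_of_local fun p hp => ?_
    obtain ⟨hpD, hp0, hp1⟩ := hp
    obtain ⟨m, hm⟩ : ∃ m, iteratedFDeriv ℝ (n + 1) h p m ≠ 0 := by
      by_contra hc
      push Not at hc
      exact hp1 (by ext m; exact hc m)
    have han : AnalyticAt ℝ (iteratedFDeriv ℝ n h) p := hh.iteratedFDeriv n p hpD
    let ev : (ContinuousMultilinearMap ℝ (fun _ : Fin n => R2) ℝ) →L[ℝ] ℝ :=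
      ContinuousMultilinearMap.apply ℝ _ ℝ (Fin.tail m)
    let g : R2 → ℝ := fun t => ev (iteratedFDeriv ℝ n h t)
    have hg : AnalyticAt ℝ g p := (ev.analyticAt _).comp han
    have hgd : fderiv ℝ g p ≠ 0 := by
      have h1 : HasFDerivAt g (ev.comp (fderiv ℝ (iteratedFDeriv ℝ n h) p)) p :=
        ev.hasFDerivAt.comp p han.differentiableAt.hasFDerivAt
      rw [h1.fderiv]
      intro h2
      apply hm
      rw [iteratedFDeriv_succ_apply_left]
      exact congrArg (fun L : R2 →L[ℝ] ℝ => L (m 0)) h2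
    obtain ⟨V, hV, hVd⟩ := dimH_regular_zero hg hgd
    refine ⟨V ∩ Z n, inter_mem (mem_nhdsWithin_of_mem_nhds hV) self_mem_nhdsWithin,
      (dimH_mono ?_).trans hVd⟩
    rintro t ⟨h1, h2⟩
    refine ⟨h1, ?_⟩
    simp only [mem_ofPred_eq, g, h2.2.1, map_zero]
  have hsub : {t ∈ D | h t = 0} ⊆ ⋃ n, Z n := by
    rintro p ⟨hpD, hp⟩
    by_contra hc
    simp only [mem_iUnion, not_exists, Z, mem_ofPred_eq, not_and, not_not] at hc
    have hall : ∀ n, iteratedFDeriv ℝ n h p = 0 := by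
      intro n
      induction n with
      | zero => ext m; simpa using hp
      | succ n ih => exact hc n hpD ih
    obtain ⟨P, r, hP⟩ := hh p hpD
    have hev : h =ᶠ[𝓝 p] 0 := by
      have h1 : ∀ᶠ y in 𝓝 (0 : R2), h (p + y) = 0 := by
        filter_upwards [Metric.eball_mem_nhds (0 : R2) hP.r_pos] with y hy
        have h2 := hP.hasSum_iteratedFDeriv hy
        simp only [hall, zero_apply, smul_zero] at h2
        exact h2.unique hasSum_zero
      have h3 : Tendsto (fun t : R2 => t - p) (𝓝 p) (𝓝 0) := by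
        have := (continuous_sub_right p).tendsto p
        simpa using this
      filter_upwards [h3.eventually h1] with t ht
      simpa using ht
    exact h0 (hh.eqOn_zero_of_preconnected_of_eventuallyEq_zero hD hpD hev ht0)
  refine (dimH_mono hsub).trans ?_
  rw [dimH_iUnion]
  exact iSup_le hZ

end Pool.Agent.P.MP_67bdec_gt
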