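import Pool.Agent.P.MP_67bdec_gt.Sheet
import Pool.Agent.P.MP_67bdec_gt.Norm

/-!
Recentred data, and the case of a surface whose tangent planes are all vertical.
-/

namespace Pool.Agent.P.MP_67bdec_gt

open Set Filter Topology MeasureTheory

/-- The parameter of the point on its parabola. -/
noncomputable def Data.tau (X : Data) (t : R2) : ℝ :=
  (X.a t * ((X.F t).1 - X.x0 t) + X.b t * ((X.F t).2.1 - X.y0 t)) / (X.a t ^ 2 + X.b t ^ 2)

/-- The tangent vector of the parabola at the point. -/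
noncomputable def Data.eta (X : Data) (t : R2) : R3 :=
  (X.a t, X.b t, 2 * X.c t * X.tau t + X.d t)

theorem sq_add_sq_ne {a b : ℝ} (h : (a, b) ≠ (0, 0)) : a ^ 2 + b ^ 2 ≠ 0 := by
  intro h0
  apply h
  have h1 : a = 0 := by nlinarith
  have h2 : b = 0 := by nlinarith
  rw [h1, h2]

variable {X : Data}

theorem tau_spec (hX : X.IsLP) {t : R2} (ht : t ∈ X.D) :
    X.par t (X.tau t) = X.F t ∧ X.tau t ∈ Ioo (X.lo t) (X.hi t) := by
  obtain ⟨τ, hτ, he⟩ := hX.mem_arc t ht
  have : X.tau t = τ := by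
    have hne := sq_add_sq_ne (hX.dir_ne t ht)
    unfold Data.tau
    rw [← he]
    simp only [Data.par]
    field_simp
    ring
  rw [this]
  exact ⟨he, hτ⟩

theorem par_shift (hX : X.IsLP) {t : R2} (ht : t ∈ X.D) (σ : ℝ) :
    X.par t (X.tau t + σ) = X.F t + σ • X.eta t + σ ^ 2 • ((0, 0, X.c t) : R3) := by
  rw [← (tau_spec hX ht).1]
  simp only [Data.par, Data.eta, Prod.smul_mk, Prod.mk_add_mk, smul_eq_mul]
  refine Prod.ext ?_ (Prod.ext ?_ ?_) <;> simp only <;> ring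

theorem an_F1 (hX : X.IsLP) : AnalyticOnNhd ℝ (fun t => (X.F t).1) X.D :=
  fun t ht => analyticAt_fst.comp (hX.anF t ht)

theorem an_F2 (hX : X.IsLP) : AnalyticOnNhd ℝ (fun t => (X.F t).2.1) X.D :=
  fun t ht => analyticAt_fst.comp (analyticAt_snd.comp (hX.anF t ht))

theorem an_tau (hX : X.IsLP) : AnalyticOnNhd ℝ X.tau X.D :=
  ((hX.ana.mul ((an_F1 hX).sub hX.anx0)).add (hX.anb.mul ((an_F2 hX).sub hX.any0))).div
    ((hX.ana.pow 2).add (hX.anb.pow 2)) fun t ht => sq_add_sq_ne (hX.dir_ne t ht)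

theorem an_eta (hX : X.IsLP) : AnalyticOnNhd ℝ X.eta X.D :=
  hX.ana.prod (hX.anb.prod (((analyticOnNhd_const.mul hX.anc).mul (an_tau hX)).add hX.and))

theorem par_eventually (hX : X.IsLP) {t0 : R2} (ht0 : t0 ∈ X.D) {σ0 : ℝ}
    (hσ : X.tau t0 + σ0 ∈ Ioo (X.lo t0) (X.hi t0)) :
    ∀ᶠ p : R2 × ℝ in 𝓝 (t0, σ0),
      X.F p.1 + p.2 • X.eta p.1 + p.2 ^ 2 • ((0, 0, X.c p.1) : R3) ∈ X.S := by
  have c1 : ∀ {f : R2 → ℝ}, AnalyticOnNhd ℝ f X.D →
      ContinuousAt (fun p : R2 × ℝ => f p.1) (t0, σ0) :=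
    fun hf => ContinuousAt.comp (g := _) (f := fun p : R2 × ℝ => p.1) (hf t0 ht0).continuousAt
      continuousAt_fst
  have h1 := (c1 hX.anlo).eventually_lt ((c1 (an_tau hX)).add continuousAt_snd) hσ.1
  have h2 := ((c1 (an_tau hX)).add continuousAt_snd).eventually_lt (c1 hX.anhi) hσ.2
  have h3 : ∀ᶠ p : R2 × ℝ in 𝓝 (t0, σ0), p.1 ∈ X.D :=
    continuous_fst.continuousAt.eventually (hX.isOpen.mem_nhds ht0)
  filter_upwards [h1, h2, h3] with p h1 h2 h3
  rw [← par_shift hX h3]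
  exact hX.arc_sub _ h3 ⟨_, ⟨h1, h2⟩, rfl⟩

theorem vertical (hX : X.IsLP)
    (h : ∀ t ∈ X.D, ¬ Function.Injective (fderiv ℝ (fun t => topv (X.F t)) t)) :
    ∃ α β γ : ℝ, (α, β) ≠ (0, 0) ∧ ∀ p ∈ X.S, α * p.1 + β * p.2.1 = γ := by
  let x : R2 → ℝ := fun t => (X.F t).1
  let y : R2 → ℝ := fun t => (X.F t).2.1
  have hx : AnalyticOnNhd ℝ x X.D := an_F1 hX
  have hy : AnalyticOnNhd ℝ y X.D := an_F2 hX
  have hnull : volume ((fun t => topv (X.F t)) '' X.D) = 0 := by
    refine addHaar_image_eq_zero_of_det_fderivWithin_eq_zero volume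
      (f' := fun t => fderiv ℝ (fun t => topv (X.F t)) t) (fun t ht => ?_) (fun t ht => ?_)
    · exact ((topv.analyticAt _).comp (hX.anF t ht)).differentiableAt.hasFDerivAt.hasFDerivWithinAt
    · exact LinearMap.det_eq_zero_iff_ker_ne_bot.2 fun hk => h t ht (LinearMap.ker_eq_bot.1 hk)
  have hrank : ∀ t ∈ X.D, ∀ σ, X.tau t + σ ∈ Ioo (X.lo t) (X.hi t) → ∀ k,
      X.a t * (fderiv ℝ y t k + σ * fderiv ℝ X.b t k) -
        X.b t * (fderiv ℝ x t k + σ * fderiv ℝ X.a t k) = 0 := by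
    intro t ht σ hσ k
    by_contra hne
    let H : R2 × ℝ → R2 := fun p => (x p.1 + p.2 * X.a p.1, y p.1 + p.2 * X.b p.1)
    have d1 : ∀ {f : R2 → ℝ}, AnalyticOnNhd ℝ f X.D → HasStrictFDerivAt (fun p : R2 × ℝ => f p.1)
        ((fderiv ℝ f t).comp (ContinuousLinearMap.fst ℝ R2 ℝ)) (t, σ) :=
      fun hf => HasStrictFDerivAt.comp (f := fun p : R2 × ℝ => p.1) (t, σ)
        (hf t ht).hasStrictFDerivAt hasStrictFDerivAt_fst
    have hd := ((d1 hx).fun_add (hasStrictFDerivAt_snd.fun_mul (d1 hX.ana))).prodMk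
      ((d1 hy).fun_add (hasStrictFDerivAt_snd.fun_mul (d1 hX.anb)))
    have hmap := hd.map_nhds_eq_of_surj (by
      rw [LinearMap.range_eq_top]
      rintro ⟨w1, w2⟩
      set A := fderiv ℝ x t k + σ * fderiv ℝ X.a t k with hA
      set B := fderiv ℝ y t k + σ * fderiv ℝ X.b t k with hB
      refine ⟨(((X.a t * w2 - X.b t * w1) / (X.a t * B - X.b t * A)) • k,
        (w1 * B - w2 * A) / (X.a t * B - X.b t * A)), ?_⟩
      ext
      · simp only [ContinuousLinearMap.coe_coe, ContinuousLinearMap.prod_apply, add_apply,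
          smul_apply, ContinuousLinearMap.comp_apply, ContinuousLinearMap.coe_fst',
          ContinuousLinearMap.coe_snd', map_smul, smul_eq_mul]
        field_simp
        rw [hA, hB]; ring
      · simp only [ContinuousLinearMap.coe_coe, ContinuousLinearMap.prod_apply, add_apply,
          smul_apply, ContinuousLinearMap.comp_apply, ContinuousLinearMap.coe_fst',
          ContinuousLinearMap.coe_snd', map_smul, smul_eq_mul]
        field_simp
        rw [hA, hB]; ring)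
    have hmem : (fun t => topv (X.F t)) '' X.D ∈ 𝓝 (H (t, σ)) := by
      rw [← hmap, mem_map]
      filter_upwards [par_eventually hX ht hσ] with p hp
      obtain ⟨t1, ht1, he⟩ := hp
      refine ⟨t1, ht1, ?_⟩
      simp only [he, Data.eta, topv_apply, x, y]
      simp
    exact (Measure.measure_pos_of_mem_nhds volume hmem).ne' hnull
  have r1 : ∀ t ∈ X.D, ∀ k, X.a t * fderiv ℝ y t k - X.b t * fderiv ℝ x t k = 0 := by
    intro t ht k
    simpa using hrank t ht 0 (by simpa using (tau_spec hX ht).2) k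
  have r2 : ∀ t ∈ X.D, ∀ k, X.a t * fderiv ℝ X.b t k - X.b t * fderiv ℝ X.a t k = 0 := by
    intro t ht k
    have h1 := (tau_spec hX ht).2
    have h2 := hrank t ht ((X.hi t - X.tau t) / 2) ⟨by linarith [h1.1, h1.2], by linarith [h1.2]⟩ k
    apply mul_left_cancel₀ (show (X.hi t - X.tau t) / 2 ≠ 0 by linarith [h1.2])
    linear_combination h2 - r1 t ht k
  obtain ⟨t0, ht0⟩ := hX.conn.nonempty
  set a0 := X.a t0 with ha0
  set b0 := X.b t0 with hb0
  have hn0 : a0 ^ 2 + b0 ^ 2 ≠ 0 := sq_add_sq_ne (hX.dir_ne t0 ht0)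
  have hn : ∀ t ∈ X.D, a0 * X.b t - b0 * X.a t = 0 := by
    refine an_continue hX.conn.isPreconnected ht0
      ((analyticOnNhd_const.mul hX.anb).sub (analyticOnNhd_const.mul hX.ana))
      analyticOnNhd_const ?_
    have hm : ∀ᶠ t in 𝓝 t0, a0 * X.a t + b0 * X.b t ≠ 0 :=
      ((continuousAt_const.mul (hX.ana t0 ht0).continuousAt).add
        (continuousAt_const.mul (hX.anb t0 ht0).continuousAt)).eventually_ne
        (by simp only [Pi.add_apply, Pi.mul_apply, ← ha0, ← hb0]; simpa [sq] using hn0)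
    obtain ⟨ρ, hρ, hball⟩ := Metric.eventually_nhds_iff_ball.1
      (hm.and (show ∀ᶠ t in 𝓝 t0, t ∈ X.D from hX.isOpen.mem_nhds ht0))
    let θ : R2 → ℝ := fun t => (a0 * X.b t - b0 * X.a t) * (a0 * X.a t + b0 * X.b t)⁻¹
    have hθ : ∀ t ∈ Metric.ball t0 ρ, HasFDerivAt θ (0 : R2 →L[ℝ] ℝ) t := by
      intro t ht
      obtain ⟨hm, htD⟩ := hball t ht
      have da := (hX.ana t htD).differentiableAt.hasFDerivAt
      have db := (hX.anb t htD).differentiableAt.hasFDerivAt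
      have d1 := ((db.const_mul a0).fun_sub (da.const_mul b0)).fun_mul
        ((hasDerivAt_inv hm).comp_hasFDerivAt t ((da.const_mul a0).fun_add (db.const_mul b0)))
      refine d1.congr_fderiv ?_
      refine ContinuousLinearMap.ext fun k => ?_
      simp only [add_apply, sub_apply, smul_apply, smul_eq_mul, Function.comp_apply, zero_apply]
      have e : (a0 * X.a t + b0 * X.b t)⁻¹ =
          (a0 * X.a t + b0 * X.b t) * ((a0 * X.a t + b0 * X.b t) ^ 2)⁻¹ := by field_simp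
      rw [e]
      linear_combination (a0 ^ 2 + b0 ^ 2) * ((a0 * X.a t + b0 * X.b t) ^ 2)⁻¹ * r2 t htD k
    filter_upwards [Metric.ball_mem_nhds t0 hρ] with t ht
    have h1 := Metric.isOpen_ball.is_const_of_fderiv_eq_zero (𝕜 := ℝ) (f := θ)
      (convex_ball t0 ρ).isPreconnected
      (fun t ht => (hθ t ht).differentiableAt.differentiableWithinAt)
      (fun t ht => (hθ t ht).fderiv) ht (Metric.mem_ball_self hρ)
    have h2 : θ t0 = 0 := by simp only [θ, ← ha0, ← hb0]; ring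
    rw [h2] at h1
    exact (mul_eq_zero.1 h1).resolve_right (inv_ne_zero (hball t ht).1)
  let φ : R2 → ℝ := fun t => -b0 * x t + a0 * y t
  have hφ : ∀ t ∈ X.D, HasFDerivAt φ (0 : R2 →L[ℝ] ℝ) t := by
    intro t ht
    have d1 := ((hx t ht).differentiableAt.hasFDerivAt.const_mul (-b0)).fun_add
      ((hy t ht).differentiableAt.hasFDerivAt.const_mul a0)
    refine d1.congr_fderiv ?_
    refine ContinuousLinearMap.ext fun k => ?_
    simp only [add_apply, smul_apply, smul_eq_mul, zero_apply]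
    apply mul_left_cancel₀ (sq_add_sq_ne (hX.dir_ne t ht))
    linear_combination (X.a t * a0 + X.b t * b0) * r1 t ht k +
      (X.a t * fderiv ℝ x t k + X.b t * fderiv ℝ y t k) * hn t ht
  refine ⟨-b0, a0, φ t0, ?_, ?_⟩
  · intro h0
    simp only [Prod.mk.injEq, neg_eq_zero] at h0
    exact hn0 (by rw [h0.1, h0.2]; ring)
  · rintro _ ⟨t, ht, rfl⟩
    exact hX.isOpen.is_const_of_fderiv_eq_zero (𝕜 := ℝ) (f := φ) hX.conn.isPreconnected
      (fun t ht => (hφ t ht).differentiableAt.differentiableWithinAt)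
      (fun t ht => (hφ t ht).fderiv) ht ht0

end Pool.Agent.P.MP_67bdec_gt
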